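import Mathlib

/-! Gain graphs, their frame independent sets, and the rank-3 matroids of generic full gain graphs
on three vertices. -/

set_option autoImplicit false

namespace Pool.Agent.H761R3.Gain

universe u

/-- A gain graph over `H` with vertex set `V` and edge set `E`: every edge has two ends (loops and
parallel edges are allowed) and a gain, written with respect to the orientation from `src` to
`tgt`. -/
structure GainGraph (H V E : Type*) where
  src : E → V
  tgt : E → V
  gain : E → H

namespace GainGraph

variable {H V E : Type*} [Group H] (G : GainGraph H V E)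

/-- the first vertex of a directed edge; `(e, true)` is `e` traversed from `src` to `tgt`, and
`(e, false)` is `e` traversed from `tgt` to `src` -/
def tail (d : E × Bool) : V := if d.2 then G.src d.1 else G.tgt d.1

/-- the last vertex of a directed edge -/
def head (d : E × Bool) : V := if d.2 then G.tgt d.1 else G.src d.1

/-- the gain of a directed edge: reversing the direction inverts the gain -/
def dgain (d : E × Bool) : H := if d.2 then G.gain d.1 else (G.gain d.1)⁻¹

/-- A cycle, as a closed sequence of directed edges (at least one) in which each directed edge ends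
where the next one (cyclically) starts, no vertex is repeated and no edge is repeated. -/
def IsCycle (l : List (E × Bool)) : Prop :=
  l ≠ [] ∧ (l ++ l.take 1).IsChain (fun d e => G.head d = G.tail e) ∧
    (l.map G.tail).Nodup ∧ (l.map Prod.fst).Nodup

/-- a cycle is balanced if the product of the gains along it is the identity -/
def Balanced (l : List (E × Bool)) : Prop := (l.map G.dgain).prod = 1

/-- the set of edges of a sequence of directed edges -/
def edges (l : List (E × Bool)) : Set E := {e | e ∈ l.map Prod.fst}

/-- two vertices lie in the same connected component of the graph `(V, X)` -/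
def Conn (X : Set E) : V → V → Prop :=
  Relation.EqvGen (fun u v => ∃ e ∈ X, G.src e = u ∧ G.tgt e = v)

/-- A set `X` of edges is frame independent if every connected component of `(V, X)` is a tree or
contains exactly one cycle, and that cycle is unbalanced. In other words, no cycle of `(V, X)` is
balanced, and two cycles in the same component have the same edges. -/
def Indep (X : Set E) : Prop :=
  (∀ l, G.IsCycle l → edges l ⊆ X → ¬ G.Balanced l) ∧
  ∀ l l', G.IsCycle l → G.IsCycle l' → edges l ⊆ X → edges l' ⊆ X →
    (∃ d ∈ l, ∃ d' ∈ l', G.Conn X (G.tail d) (G.tail d')) → edges l = edges l'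

end GainGraph

/-- A matroid is `H`-gain-graphic if it is isomorphic to the frame matroid of some finite `H`-gain
graph. -/
def IsGainGraphic (H : Type*) [Group H] {α : Type} (M : Matroid α) : Prop :=
  ∃ (V E : Type) (_ : Finite V) (_ : Finite E) (G : GainGraph H V E) (φ : E ≃ M.E),
    ∀ X : Set E, G.Indep X ↔ M.Indep ((fun e => (φ e : α)) '' X)

/-! ### The special gain graphs -/

/-- edges of the special gain graph -/
inductive El (ι : Type) : Type
  | a (i : ι) : El ι
  | b (i : ι) : El ι
  | c (i j : ι) : El ι

namespace El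

variable {ι : Type}

/-- the class of an edge -/
def cl : El ι → Fin 3
  | a _ => 0
  | b _ => 1
  | c _ _ => 2

def fs : Fin 3 → Fin 3 := ![0, 1, 0]
def ft : Fin 3 → Fin 3 := ![1, 2, 2]

/-- the three-point line -/
def T (i j : ι) : Set (El ι) := {a i, b j, c i j}

/-- the long lines -/
def Lg (κ : Fin 3) : Set (El ι) := {e | e.cl = κ}

/-- the lines -/
def Lines : Set (Set (El ι)) := {ℓ | (∃ κ, ℓ = Lg κ) ∨ ∃ i j, ℓ = T i j}

/-- independence in terms of lines -/
def LI (X : Set (El ι)) : Prop := X.ncard ≤ 3 ∧ ∀ ℓ ∈ (Lines : Set (Set (El ι))), (X ∩ ℓ).ncard ≤ 2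

/-- equivalence with a sum type -/
def equiv (ι : Type) : El ι ≃ ι ⊕ ι ⊕ (ι × ι) where
  toFun
    | a i => Sum.inl i
    | b i => Sum.inr (Sum.inl i)
    | c i j => Sum.inr (Sum.inr (i, j))
  invFun
    | Sum.inl i => a i
    | Sum.inr (Sum.inl i) => b i
    | Sum.inr (Sum.inr (i, j)) => c i j
  left_inv := by rintro (i | i | ⟨i, j⟩) <;> rfl
  right_inv := by rintro (i | i | ⟨i, j⟩) <;> rfl

instance [Finite ι] : Finite (El ι) := Finite.of_equiv _ (equiv ι).symm

theorem lines_unique {ℓ ℓ' : Set (El ι)} (h : ℓ ∈ (Lines : Set (Set (El ι))))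
    (h' : ℓ' ∈ (Lines : Set (Set (El ι)))) {x y : El ι} (hxy : x ≠ y) (hx : x ∈ ℓ) (hy : y ∈ ℓ)
    (hx' : x ∈ ℓ') (hy' : y ∈ ℓ') : ℓ = ℓ' := by
  have cT : ∀ {i j : ι} {z : El ι}, z ∈ T i j → z = a i ∨ z = b j ∨ z = c i j := fun h => h
  have key : ∀ {κ : Fin 3} {i j : ι}, x ∈ Lg κ → y ∈ Lg κ → x ∈ T i j → y ∈ T i j → False := by
    intro κ i j h1 h2 h3 h4
    have h1 : x.cl = κ := h1
    have h2 : y.cl = κ := h2
    rcases cT h3 with rfl | rfl | rfl <;> rcases cT h4 with rfl | rfl | rfl <;>
      first
        | exact hxy rfl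
        | (rw [← h2] at h1; simp [cl] at h1)
  rcases h with ⟨κ, rfl⟩ | ⟨i, j, rfl⟩ <;> rcases h' with ⟨κ', rfl⟩ | ⟨i', j', rfl⟩
  · have h1 : x.cl = κ := hx
    have h2 : x.cl = κ' := hx'
    rw [← h1, h2]
  · exact (key hx hy hx' hy').elim
  · exact (key hx' hy' hx hy).elim
  · have : i = i' ∧ j = j' := by
      rcases cT hx with rfl | rfl | rfl <;> rcases cT hy with rfl | rfl | rfl <;>
        rcases cT hx' with h | h | h <;> rcases cT hy' with h' | h' | h' <;>
        simp_all
    rw [this.1, this.2]

/-- the matroid of lines -/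
def mat (ι : Type) [Finite ι] : Matroid (El ι) :=
  (IndepMatroid.ofFinite (E := Set.univ) (Set.toFinite _) LI
    (by
      constructor
      · simp
      · intro ℓ _
        simp)
    (by
      intro I J hJ hIJ
      refine ⟨(Set.ncard_le_ncard hIJ (Set.toFinite _)).trans hJ.1, fun ℓ hℓ => ?_⟩
      exact (Set.ncard_le_ncard (Set.inter_subset_inter_left _ hIJ) (Set.toFinite _)).trans
        (hJ.2 ℓ hℓ))
    (by
      intro I J hI hJ hlt
      have hd : (J \ I).Nonempty := by
        rw [Set.nonempty_iff_ne_empty]
        intro h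
        rw [Set.sdiff_eq_empty] at h
        exact absurd (Set.ncard_le_ncard h (Set.toFinite _)) (by omega)
      rcases Nat.lt_or_ge I.ncard 2 with h1 | h1
      · obtain ⟨e, he, he'⟩ := hd
        have h2 : (insert e I).ncard ≤ 2 := (Set.ncard_insert_le e I).trans (by omega)
        refine ⟨e, he, he', h2.trans (by omega), fun ℓ _ => ?_⟩
        exact (Set.ncard_le_ncard Set.inter_subset_left (Set.toFinite _)).trans h2
      · have h2 : I.ncard = 2 := by
          have := hJ.1
          omega
        have h3 : J.ncard = 3 := by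
          have := hJ.1
          omega
        by_contra hcon
        push Not at hcon
        obtain ⟨x, y, hxy, rfl⟩ := Set.ncard_eq_two.1 h2
        have key : ∀ e ∈ J \ {x, y}, ∃ ℓ ∈ (Lines : Set (Set (El ι))), x ∈ ℓ ∧ y ∈ ℓ ∧ e ∈ ℓ := by
          rintro e ⟨he, he'⟩
          by_contra hno
          refine hcon e he he' ⟨(Set.ncard_insert_le _ _).trans (by omega), fun ℓ hℓ => ?_⟩
          by_contra h4
          push Not at h4
          have h5 : (insert e {x, y} : Set (El ι)).ncard ≤ 3 :=
            (Set.ncard_insert_le _ _).trans (by omega)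
          have h6 : (insert e {x, y} : Set (El ι)) ∩ ℓ = insert e {x, y} :=
            Set.eq_of_subset_of_ncard_le Set.inter_subset_left (by omega) (Set.toFinite _)
          have h7 : (insert e {x, y} : Set (El ι)) ⊆ ℓ := Set.inter_eq_left.1 h6
          exact hno ⟨ℓ, hℓ, h7 (by simp), h7 (by simp), h7 (by simp)⟩
        obtain ⟨e₀, he₀⟩ := hd
        obtain ⟨ℓ, hℓ, hxℓ, hyℓ, _⟩ := key e₀ he₀
        have h8 : J ⊆ ℓ := by
          intro e he
          by_cases h9 : e ∈ ({x, y} : Set (El ι))
          · rcases h9 with rfl | h9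
            · exact hxℓ
            · rw [Set.mem_singleton_iff] at h9
              rw [h9]
              exact hyℓ
          · obtain ⟨ℓ', hℓ', hx', hy', he'⟩ := key e ⟨he, h9⟩
            rw [lines_unique hℓ hℓ' hxy hxℓ hyℓ hx' hy']
            exact he'
        have h10 := hJ.2 ℓ hℓ
        rw [Set.inter_eq_left.2 h8] at h10
        omega)
    (by intro I _; exact Set.subset_univ _)).matroid

theorem mat_E (ι : Type) [Finite ι] : (mat ι).E = Set.univ := rfl

theorem mat_indep {ι : Type} [Finite ι] (X : Set (El ι)) : (mat ι).Indep X ↔ LI X := Iff.rfl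

end El

end Pool.Agent.H761R3.Gain
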