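import Mathlib
import Pool.Agent.H761R3.Gain

/-! The frame matroid of a generic full gain graph on three vertices is the matroid of lines. -/

set_option autoImplicit false

namespace Pool.Agent.H761R3.Gain

open GainGraph

variable {ι : Type} {H : Type*} [Group H]

/-- the special gain graph -/
def SG (g h : ι → H) : GainGraph H (Fin 3) (El ι) where
  src e := El.fs e.cl
  tgt e := El.ft e.cl
  gain
    | .a i => g i
    | .b j => h j
    | .c i j => g i * h j

/-- genericity: all products are distinct -/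
def Gen (g h : ι → H) : Prop := ∀ i j i' j', g i * h j = g i' * h j' → i = i' ∧ j = j'

theorem exists_gen (H : Type*) [Group H] [Infinite H] (n : ℕ) : ∃ g h : Fin n → H, Gen g h := by
  classical
  obtain ⟨g⟩ : Nonempty (Fin n ↪ H) := ⟨(Fin.valEmbedding).trans (Infinite.natEmbedding H)⟩
  let D : Finset H := (Finset.univ ×ˢ Finset.univ : Finset (Fin n × Fin n)).image
    fun p => (g p.1)⁻¹ * g p.2
  have key : ∀ m : ℕ, ∃ h : ℕ → H, ∀ j < m, ∀ j' < j, ∀ d ∈ D, h j ≠ d * h j' := by
    intro m
    induction m with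
    | zero => exact ⟨fun _ => 1, by simp⟩
    | succ m ih =>
      obtain ⟨h, hh⟩ := ih
      obtain ⟨x, hx⟩ := Infinite.exists_notMem_finset
        ((D ×ˢ Finset.range m).image fun p => p.1 * h p.2)
      refine ⟨Function.update h m x, fun j hj j' hj' d hd => ?_⟩
      have hj'm : j' ≠ m := by omega
      rcases Nat.lt_succ_iff_lt_or_eq.1 hj with h1 | h1
      · rw [Function.update_of_ne h1.ne, Function.update_of_ne hj'm]
        exact hh j h1 j' hj' d hd
      · rw [h1, Function.update_self, Function.update_of_ne hj'm]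
        intro hxe
        apply hx
        rw [Finset.mem_image]
        exact ⟨(d, j'), by simp [hd]; omega, hxe.symm⟩
  obtain ⟨h, hh⟩ := key n
  have hD : ∀ i i' : Fin n, (g i)⁻¹ * g i' ∈ D := by
    intro i i'
    rw [Finset.mem_image]
    exact ⟨(i, i'), by simp, rfl⟩
  refine ⟨g, fun j => h j, ?_⟩
  have main : ∀ (i : Fin n) (j : Fin n) (i' j' : Fin n), g i * h j = g i' * h j' →
      ¬ (j' < j) := by
    intro i j i' j' he hlt
    refine hh j j.2 j' hlt _ (hD i i') ?_
    rw [mul_assoc, ← he, inv_mul_cancel_left]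
  intro i j i' j' he
  have h1 : j = j' := le_antisymm (not_lt.1 (main i j i' j' he)) (not_lt.1 (main i' j' i j he.symm))
  subst h1
  exact ⟨g.injective (mul_right_cancel he), rfl⟩

section

variable {g h : ι → H}

theorem SG_tail (d : El ι × Bool) : (SG g h).tail d = if d.2 then El.fs d.1.cl else El.ft d.1.cl := rfl
theorem SG_head (d : El ι × Bool) : (SG g h).head d = if d.2 then El.ft d.1.cl else El.fs d.1.cl := rfl

theorem gain_inj [Nonempty ι] (hg : Gen g h) {e f : El ι} (hcl : e.cl = f.cl)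
    (he : (SG g h).gain e = (SG g h).gain f) : e = f := by
  obtain ⟨o⟩ := ‹Nonempty ι›
  cases e <;> cases f <;> simp [El.cl] at hcl
  · rename_i i j
    have : g i = g j := he
    have := hg i o j o (by rw [this])
    rw [this.1]
  · rename_i i j
    have : h i = h j := he
    have := hg o i o j (by rw [this])
    rw [this.2]
  · rename_i i j i' j'
    have : g i * h j = g i' * h j' := he
    have := hg i j i' j' this
    rw [this.1, this.2]

/-- digons -/
theorem digon_cycle {e f : El ι} (hcl : e.cl = f.cl) (hne : e ≠ f) :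
    (SG g h).IsCycle [(e, true), (f, false)] := by
  refine ⟨by simp, ?_, ?_, by simp [hne]⟩
  · simp [SG_tail, SG_head, hcl]
  · simp only [List.map_cons, List.map_nil, SG_tail, if_true, Bool.false_eq_true, if_false, hcl]
    have : El.fs f.cl ≠ El.ft f.cl := by
      generalize f.cl = κ
      revert κ
      decide
    simpa using this

theorem edges_two {e f : El ι} {s t : Bool} :
    edges [(e, s), (f, t)] = ({e, f} : Set (El ι)) := by
  ext x
  simp [edges]

theorem edges_three {e f x : El ι} {s t r : Bool} :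
    edges [(e, s), (f, t), (x, r)] = ({e, f, x} : Set (El ι)) := by
  ext y
  simp [edges]

theorem triangle_cycle (i j i' j' : ι) :
    (SG g h).IsCycle [(El.a i, true), (El.b j, true), (El.c i' j', false)] := by
  refine ⟨by simp, ?_, ?_, by simp⟩
  · simp [SG_tail, SG_head, El.fs, El.ft, El.cl]
  · simp only [List.map_cons, List.map_nil, SG_tail, if_true, Bool.false_eq_true, if_false, El.cl]
    simp only [El.fs, El.ft]
    decide

theorem dec1 : ∀ (κ : Fin 3) (s : Bool),
    ¬ ((if s = true then El.ft κ else El.fs κ) = if s = true then El.fs κ else El.ft κ) := by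
  decide

theorem dec2 : ∀ (κ κ' : Fin 3) (s t : Bool),
    ((if s = true then El.ft κ else El.fs κ) = if t = true then El.fs κ' else El.ft κ') →
    ((if t = true then El.ft κ' else El.fs κ') = if s = true then El.fs κ else El.ft κ) →
    κ = κ' ∧ s ≠ t := by
  decide

theorem dec3 : ∀ (κ κ' κ'' : Fin 3) (s t r : Bool),
    ¬ ((if s = true then El.fs κ else El.ft κ) = if t = true then El.fs κ' else El.ft κ') →
    ¬ ((if s = true then El.fs κ else El.ft κ) = if r = true then El.fs κ'' else El.ft κ'') →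
    ¬ ((if t = true then El.fs κ' else El.ft κ') = if r = true then El.fs κ'' else El.ft κ'') →
    ((if s = true then El.ft κ else El.fs κ) = if t = true then El.fs κ' else El.ft κ') →
    ((if t = true then El.ft κ' else El.fs κ') = if r = true then El.fs κ'' else El.ft κ'') →
    ((if r = true then El.ft κ'' else El.fs κ'') = if s = true then El.fs κ else El.ft κ) →
    κ ≠ κ' ∧ κ' ≠ κ'' ∧ κ ≠ κ'' := by
  decide

/-- classification of cycles -/
theorem cycle_cases {l : List (El ι × Bool)} (hl : (SG g h).IsCycle l) :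
    (∃ e f s t, l = [(e, s), (f, t)] ∧ e ≠ f ∧ e.cl = f.cl ∧ s ≠ t) ∨
    (∃ e f x s t r, l = [(e, s), (f, t), (x, r)] ∧ e.cl ≠ f.cl ∧ f.cl ≠ x.cl ∧ e.cl ≠ x.cl ∧
      (SG g h).head (e, s) = (SG g h).tail (f, t) ∧ (SG g h).head (f, t) = (SG g h).tail (x, r) ∧
      (SG g h).head (x, r) = (SG g h).tail (e, s)) := by
  obtain ⟨h0, h1, h2, h3⟩ := hl
  have hlen : l.length ≤ 3 := by
    have := h2.length_le_card
    simpa using this
  match l, h0 with
  | [d], _ =>
    exfalso
    obtain ⟨e, s⟩ := d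
    simp only [List.take_succ_cons, List.take_zero, List.singleton_append, List.isChain_cons_cons,
      List.isChain_singleton, and_true, SG_tail, SG_head] at h1
    exact dec1 _ _ h1
  | [(e, s), (f, t)], _ =>
    left
    simp only [List.take_succ_cons, List.take_zero, List.cons_append, List.nil_append,
      List.isChain_cons_cons, List.isChain_singleton, and_true, SG_tail, SG_head] at h1
    simp only [List.map_cons, List.map_nil, List.nodup_cons, List.mem_singleton,
      List.not_mem_nil, not_false_eq_true, List.nodup_nil, and_true] at h3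
    exact ⟨e, f, s, t, rfl, h3, dec2 _ _ _ _ h1.1 h1.2⟩
  | [(e, s), (f, t), (x, r)], _ =>
    right
    simp only [List.take_succ_cons, List.take_zero, List.cons_append, List.nil_append,
      List.isChain_cons_cons, List.isChain_singleton, and_true] at h1
    refine ⟨e, f, x, s, t, r, rfl, ?_⟩
    obtain ⟨h4, h5, h6⟩ := h1
    simp only [List.map_cons, List.map_nil, List.nodup_cons, List.mem_cons,
      List.not_mem_nil, not_false_eq_true, List.nodup_nil, and_true, not_or, or_false] at h2
    obtain ⟨⟨a1, a2⟩, a3⟩ := h2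
    have := dec3 _ _ _ s t r a1 a2 a3 h4 h5 h6
    exact ⟨this.1, this.2.1, this.2.2, h4, h5, h6⟩
  | _ :: _ :: _ :: _ :: _, _ =>
    simp only [List.length_cons] at hlen
    omega

theorem dec_gain : ∀ (κ κ' κ'' : Fin 3) (s t r : Bool), κ ≠ κ' → κ' ≠ κ'' → κ ≠ κ'' →
    ((if s = true then El.ft κ else El.fs κ) = if t = true then El.fs κ' else El.ft κ') →
    ((if t = true then El.ft κ' else El.fs κ') = if r = true then El.fs κ'' else El.ft κ'') →
    ((if r = true then El.ft κ'' else El.fs κ'') = if s = true then El.fs κ else El.ft κ) →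
    (κ = 0 ∧ κ' = 1 ∧ κ'' = 2 ∧ s = true ∧ t = true ∧ r = false) ∨
    (κ = 1 ∧ κ' = 2 ∧ κ'' = 0 ∧ s = true ∧ t = false ∧ r = true) ∨
    (κ = 2 ∧ κ' = 0 ∧ κ'' = 1 ∧ s = false ∧ t = true ∧ r = true) ∨
    (κ = 2 ∧ κ' = 1 ∧ κ'' = 0 ∧ s = true ∧ t = false ∧ r = false) ∨
    (κ = 1 ∧ κ' = 0 ∧ κ'' = 2 ∧ s = false ∧ t = false ∧ r = true) ∨
    (κ = 0 ∧ κ' = 2 ∧ κ'' = 1 ∧ s = false ∧ t = true ∧ r = false) := by
  intro κ κ' κ'' s t r
  fin_cases κ <;> fin_cases κ' <;> fin_cases κ'' <;> cases s <;> cases t <;> cases r <;>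
    simp [El.fs, El.ft]

theorem cl0 {e : El ι} (he : e.cl = 0) : ∃ i, e = El.a i := by
  cases e with
  | a i => exact ⟨i, rfl⟩
  | b i => simp [El.cl] at he
  | c i j => simp [El.cl] at he

theorem cl1 {e : El ι} (he : e.cl = 1) : ∃ i, e = El.b i := by
  cases e with
  | a i => simp [El.cl] at he
  | b i => exact ⟨i, rfl⟩
  | c i j => simp [El.cl] at he

theorem cl2 {e : El ι} (he : e.cl = 2) : ∃ i j, e = El.c i j := by
  cases e with
  | a i => simp [El.cl] at he
  | b i => simp [El.cl] at he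
  | c i j => exact ⟨i, j, rfl⟩

/-- a balanced triangle is a three-point line -/
theorem balanced_triangle (hg : Gen g h) {e f x : El ι} {s t r : Bool}
    (h1 : e.cl ≠ f.cl) (h2 : f.cl ≠ x.cl) (h3 : e.cl ≠ x.cl)
    (h4 : (SG g h).head (e, s) = (SG g h).tail (f, t))
    (h5 : (SG g h).head (f, t) = (SG g h).tail (x, r))
    (h6 : (SG g h).head (x, r) = (SG g h).tail (e, s))
    (hb : (SG g h).Balanced [(e, s), (f, t), (x, r)]) :
    ∃ i j, ({e, f, x} : Set (El ι)) = El.T i j := by
  have key : ∀ i j i' j' : ι, (SG g h).gain (El.a i) * (SG g h).gain (El.b j) =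
      (SG g h).gain (El.c i' j') → i = i' ∧ j = j' := fun i j i' j' he => hg i j i' j' he
  have hb' : (SG g h).dgain (e, s) * ((SG g h).dgain (f, t) * (SG g h).dgain (x, r)) = 1 := by
    simpa [GainGraph.Balanced] using hb
  rcases dec_gain _ _ _ s t r h1 h2 h3 h4 h5 h6 with
    ⟨c1, c2, c3, rfl, rfl, rfl⟩ | ⟨c1, c2, c3, rfl, rfl, rfl⟩ | ⟨c1, c2, c3, rfl, rfl, rfl⟩ |
    ⟨c1, c2, c3, rfl, rfl, rfl⟩ | ⟨c1, c2, c3, rfl, rfl, rfl⟩ | ⟨c1, c2, c3, rfl, rfl, rfl⟩
  · obtain ⟨i, rfl⟩ := cl0 c1
    obtain ⟨j, rfl⟩ := cl1 c2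
    obtain ⟨i', j', rfl⟩ := cl2 c3
    have := key i j i' j' (by
      simp only [GainGraph.dgain, if_true, Bool.false_eq_true, if_false] at hb'
      rw [← mul_assoc] at hb'
      exact mul_inv_eq_one.1 hb')
    obtain ⟨rfl, rfl⟩ := this
    exact ⟨i, j, rfl⟩
  · obtain ⟨j, rfl⟩ := cl1 c1
    obtain ⟨i', j', rfl⟩ := cl2 c2
    obtain ⟨i, rfl⟩ := cl0 c3
    have := key i j i' j' (by
      simp only [GainGraph.dgain, if_true, Bool.false_eq_true, if_false] at hb'
      generalize (SG g h).gain (El.a i) = A at hb' ⊢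
      generalize (SG g h).gain (El.b j) = B at hb' ⊢
      generalize (SG g h).gain (El.c i' j') = C at hb' ⊢
      have h7 : C⁻¹ * A = B⁻¹ := eq_inv_of_mul_eq_one_right hb'
      have h8 : A = C * B⁻¹ := by rw [← h7]; group
      rw [h8]; group)
    obtain ⟨rfl, rfl⟩ := this
    refine ⟨i, j, ?_⟩
    ext y
    simp only [El.T, Set.mem_insert_iff, Set.mem_singleton_iff]
    tauto
  · obtain ⟨i', j', rfl⟩ := cl2 c1
    obtain ⟨i, rfl⟩ := cl0 c2
    obtain ⟨j, rfl⟩ := cl1 c3
    have := key i j i' j' (by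
      simp only [GainGraph.dgain, if_true, Bool.false_eq_true, if_false] at hb'
      exact (inv_mul_eq_one.1 hb').symm)
    obtain ⟨rfl, rfl⟩ := this
    refine ⟨i, j, ?_⟩
    ext y
    simp only [El.T, Set.mem_insert_iff, Set.mem_singleton_iff]
    tauto
  · obtain ⟨i', j', rfl⟩ := cl2 c1
    obtain ⟨j, rfl⟩ := cl1 c2
    obtain ⟨i, rfl⟩ := cl0 c3
    have := key i j i' j' (by
      simp only [GainGraph.dgain, if_true, Bool.false_eq_true, if_false] at hb'
      rw [← mul_inv_rev] at hb'
      exact (mul_inv_eq_one.1 hb').symm)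
    obtain ⟨rfl, rfl⟩ := this
    refine ⟨i, j, ?_⟩
    ext y
    simp only [El.T, Set.mem_insert_iff, Set.mem_singleton_iff]
    tauto
  · obtain ⟨j, rfl⟩ := cl1 c1
    obtain ⟨i, rfl⟩ := cl0 c2
    obtain ⟨i', j', rfl⟩ := cl2 c3
    have := key i j i' j' (by
      simp only [GainGraph.dgain, if_true, Bool.false_eq_true, if_false] at hb'
      rw [← mul_assoc, ← mul_inv_rev] at hb'
      exact (inv_mul_eq_one.1 hb'))
    obtain ⟨rfl, rfl⟩ := this
    refine ⟨i, j, ?_⟩
    ext y
    simp only [El.T, Set.mem_insert_iff, Set.mem_singleton_iff]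
    tauto
  · obtain ⟨i, rfl⟩ := cl0 c1
    obtain ⟨i', j', rfl⟩ := cl2 c2
    obtain ⟨j, rfl⟩ := cl1 c3
    have := key i j i' j' (by
      simp only [GainGraph.dgain, if_true, Bool.false_eq_true, if_false] at hb'
      generalize (SG g h).gain (El.a i) = A at hb' ⊢
      generalize (SG g h).gain (El.b j) = B at hb' ⊢
      generalize (SG g h).gain (El.c i' j') = C at hb' ⊢
      have h7 : C * B⁻¹ = A := (inv_mul_eq_one.1 hb').symm
      rw [← h7]; group)
    obtain ⟨rfl, rfl⟩ := this
    refine ⟨i, j, ?_⟩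
    ext y
    simp only [El.T, Set.mem_insert_iff, Set.mem_singleton_iff]
    tauto

/-- a digon is unbalanced -/
theorem unbalanced_digon [Nonempty ι] (hg : Gen g h) {e f : El ι} {s t : Bool} (hne : e ≠ f)
    (hcl : e.cl = f.cl) (hst : s ≠ t) : ¬ (SG g h).Balanced [(e, s), (f, t)] := by
  intro hb
  have hb' : (SG g h).dgain (e, s) * (SG g h).dgain (f, t) = 1 := by
    simpa [GainGraph.Balanced] using hb
  apply hne
  apply gain_inj hg hcl
  cases s <;> cases t
  · exact absurd rfl hst
  · simp only [GainGraph.dgain, if_true, Bool.false_eq_true, if_false] at hb'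
    exact inv_mul_eq_one.1 hb'
  · simp only [GainGraph.dgain, if_true, Bool.false_eq_true, if_false] at hb'
    exact mul_inv_eq_one.1 hb'
  · exact absurd rfl hst

end

end Pool.Agent.H761R3.Gain
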