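import Mathlib

/-! Monadic second-order formulas of matroids (de Bruijn indices), their semantics, their Gödel
numbers, and a toolkit of definable predicates. -/

set_option autoImplicit false

namespace Pool.Agent.H761R3.MS0

/-- the assignment `a, w 0, w 1, ...` -/
def cns {A : Type*} (a : A) (w : ℕ → A) : ℕ → A := fun n => Nat.casesOn n a w

@[simp] theorem cns_zero {A : Type*} (a : A) (w : ℕ → A) : cns a w 0 = a := rfl
@[simp] theorem cns_succ {A : Type*} (a : A) (w : ℕ → A) (n : ℕ) : cns a w (n + 1) = w n := rfl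
@[simp] theorem cns_one {A : Type*} (a : A) (w : ℕ → A) : cns a w 1 = w 0 := rfl
@[simp] theorem cns_two {A : Type*} (a : A) (w : ℕ → A) : cns a w 2 = w 1 := rfl
@[simp] theorem cns_three {A : Type*} (a : A) (w : ℕ → A) : cns a w 3 = w 2 := rfl

/-- Formulas of monadic second-order logic of matroids. All variables range over subsets of the
ground set; variables are de Bruijn indices: `all φ` binds the variable `0` of `φ`. -/
inductive Fml : Type
  /-- `X_i ⊆ X_j` -/
  | sub (i j : ℕ) : Fml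
  /-- `X_i` is independent -/
  | ind (i : ℕ) : Fml
  /-- negation -/
  | neg (φ : Fml) : Fml
  /-- conjunction -/
  | and (φ ψ : Fml) : Fml
  /-- universal quantification over subsets of the ground set -/
  | all (φ : Fml) : Fml

namespace Fml

/-- Satisfaction of a formula in a matroid under an assignment of sets to the variables. -/
def Sat {α : Type} (M : Matroid α) : Fml → (ℕ → Set α) → Prop
  | sub i j, v => v i ⊆ v j
  | ind i, v => M.Indep (v i)
  | neg φ, v => ¬ Sat M φ v
  | and φ ψ, v => Sat M φ v ∧ Sat M ψ v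
  | all φ, v => ∀ S : Set α, S ⊆ M.E → Sat M φ (cns S v)

/-- All free variables of the formula are among the variables `0, ..., k - 1`. -/
def FreeBelow : ℕ → Fml → Prop
  | k, sub i j => i < k ∧ j < k
  | k, ind i => i < k
  | k, neg φ => FreeBelow k φ
  | k, and φ ψ => FreeBelow k φ ∧ FreeBelow k ψ
  | k, all φ => FreeBelow (k + 1) φ

/-- A sentence is a formula without free variables. -/
def IsSentence (φ : Fml) : Prop := FreeBelow 0 φ

/-- The Gödel number of a formula. -/
def code : Fml → ℕ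
  | sub i j => Nat.pair 0 (Nat.pair i j)
  | ind i => Nat.pair 1 i
  | neg φ => Nat.pair 2 (code φ)
  | and φ ψ => Nat.pair 3 (Nat.pair (code φ) (code ψ))
  | all φ => Nat.pair 4 (code φ)

theorem code_injective : Function.Injective code := by
  intro φ
  induction φ with
  | sub i j =>
    intro ψ h
    cases ψ <;> simp [code, Nat.pair_eq_pair] at h ⊢
    exact h
  | ind i =>
    intro ψ h
    cases ψ <;> simp [code, Nat.pair_eq_pair] at h ⊢
    exact h
  | neg φ ih =>
    intro ψ h
    cases ψ <;> simp [code, Nat.pair_eq_pair] at h ⊢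
    exact ih h
  | and φ ψ ih1 ih2 =>
    intro χ h
    cases χ <;> simp [code, Nat.pair_eq_pair] at h ⊢
    exact ⟨ih1 h.1, ih2 h.2⟩
  | all φ ih =>
    intro ψ h
    cases ψ <;> simp [code, Nat.pair_eq_pair] at h ⊢
    exact ih h

/-- lifting of a renaming under a binder -/
def lift (ρ : ℕ → ℕ) : ℕ → ℕ := cns 0 (fun n => ρ n + 1)

/-- renaming of the free variables -/
def ren : (ℕ → ℕ) → Fml → Fml
  | ρ, sub i j => sub (ρ i) (ρ j)
  | ρ, ind i => ind (ρ i)
  | ρ, neg φ => neg (ren ρ φ)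
  | ρ, and φ ψ => and (ren ρ φ) (ren ρ ψ)
  | ρ, all φ => all (ren (lift ρ) φ)

theorem sat_ren {α : Type} (M : Matroid α) (φ : Fml) : ∀ (ρ : ℕ → ℕ) (v : ℕ → Set α),
    Sat M (ren ρ φ) v ↔ Sat M φ (fun i => v (ρ i)) := by
  induction φ with
  | sub i j => intro ρ v; rfl
  | ind i => intro ρ v; rfl
  | neg φ ih => intro ρ v; simp only [ren, Sat, ih]
  | and φ ψ ih1 ih2 => intro ρ v; simp only [ren, Sat, ih1, ih2]
  | all φ ih =>
    intro ρ v
    simp only [ren, Sat, ih]
    refine forall_congr' fun S => imp_congr_right fun _ => ?_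
    have : (fun i => cns S v (lift ρ i)) = cns S (fun i => v (ρ i)) := by
      funext i
      cases i <;> rfl
    rw [this]

theorem freeBelow_ren (φ : Fml) : ∀ (ρ : ℕ → ℕ) (k : ℕ), (∀ i, ρ i < k) → FreeBelow k (ren ρ φ) := by
  induction φ with
  | sub i j => intro ρ k h; exact ⟨h i, h j⟩
  | ind i => intro ρ k h; exact h i
  | neg φ ih => intro ρ k h; exact ih ρ k h
  | and φ ψ ih1 ih2 => intro ρ k h; exact ⟨ih1 ρ k h, ih2 ρ k h⟩
  | all φ ih =>
    intro ρ k h
    refine ih _ _ fun i => ?_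
    cases i with
    | zero => exact Nat.succ_pos k
    | succ i => exact Nat.succ_lt_succ (h i)

theorem FreeBelow.mono {φ : Fml} : ∀ {k l : ℕ}, k ≤ l → FreeBelow k φ → FreeBelow l φ := by
  induction φ with
  | sub i j => intro k l h hk; exact ⟨hk.1.trans_le h, hk.2.trans_le h⟩
  | ind i => intro k l h hk; exact lt_of_lt_of_le hk h
  | neg φ ih => intro k l h hk; exact ih h hk
  | and φ ψ ih1 ih2 => intro k l h hk; exact ⟨ih1 h hk.1, ih2 h hk.2⟩
  | all φ ih => intro k l h hk; exact ih (Nat.succ_le_succ h) hk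

/-- existential quantification -/
def ex (φ : Fml) : Fml := neg (all (neg φ))

theorem sat_ex {α : Type} (M : Matroid α) (φ : Fml) (v : ℕ → Set α) :
    Sat M (ex φ) v ↔ ∃ S : Set α, S ⊆ M.E ∧ Sat M φ (cns S v) := by
  simp [ex, Sat]

end Fml

open Fml

/-- A predicate of matroids and assignments. -/
abbrev Pr := (α : Type) → Matroid α → (ℕ → Set α) → Prop

/-- definable predicates -/
def Dfn (P : Pr) : Prop := ∃ φ : Fml, ∀ (α : Type) (M : Matroid α) (v : ℕ → Set α),
  (∀ i, v i ⊆ M.E) → (Sat M φ v ↔ P α M v)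

theorem cns_sub {α : Type} {M : Matroid α} {S : Set α} {v : ℕ → Set α} (hS : S ⊆ M.E)
    (hv : ∀ i, v i ⊆ M.E) (i : ℕ) : cns S v i ⊆ M.E := by
  cases i
  · exact hS
  · exact hv _

namespace Dfn

theorem iff {P Q : Pr} (hP : Dfn P)
    (h : ∀ (α : Type) (M : Matroid α) (v : ℕ → Set α), (∀ i, v i ⊆ M.E) → (P α M v ↔ Q α M v)) :
    Dfn Q := by
  obtain ⟨φ, hφ⟩ := hP
  exact ⟨φ, fun α M v hv => (hφ α M v hv).trans (h α M v hv)⟩

theorem sub (i j : ℕ) : Dfn (fun _ _ v => v i ⊆ v j) := ⟨Fml.sub i j, fun _ _ _ _ => Iff.rfl⟩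

theorem ind (i : ℕ) : Dfn (fun _ M v => M.Indep (v i)) := ⟨Fml.ind i, fun _ _ _ _ => Iff.rfl⟩

theorem not {P : Pr} (hP : Dfn P) : Dfn (fun α M v => ¬ P α M v) := by
  obtain ⟨φ, hφ⟩ := hP
  exact ⟨Fml.neg φ, fun α M v hv => not_congr (hφ α M v hv)⟩

theorem and {P Q : Pr} (hP : Dfn P) (hQ : Dfn Q) : Dfn (fun α M v => P α M v ∧ Q α M v) := by
  obtain ⟨φ, hφ⟩ := hP
  obtain ⟨ψ, hψ⟩ := hQ
  exact ⟨Fml.and φ ψ, fun α M v hv => and_congr (hφ α M v hv) (hψ α M v hv)⟩

theorem or {P Q : Pr} (hP : Dfn P) (hQ : Dfn Q) : Dfn (fun α M v => P α M v ∨ Q α M v) :=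
  (hP.not.and hQ.not).not.iff (fun α M v _ => by tauto)

theorem imp {P Q : Pr} (hP : Dfn P) (hQ : Dfn Q) : Dfn (fun α M v => P α M v → Q α M v) :=
  (hP.and hQ.not).not.iff (fun α M v _ => by tauto)

theorem all {P : Pr} (hP : Dfn P) :
    Dfn (fun α M v => ∀ S : Set α, S ⊆ M.E → P α M (cns S v)) := by
  obtain ⟨φ, hφ⟩ := hP
  exact ⟨Fml.all φ, fun α M v hv => forall_congr' fun S => imp_congr_right fun hS =>
    hφ α M _ (cns_sub hS hv)⟩

theorem ex {P : Pr} (hP : Dfn P) :
    Dfn (fun α M v => ∃ S : Set α, S ⊆ M.E ∧ P α M (cns S v)) :=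
  hP.not.all.not.iff (fun α M v _ => by simp)

theorem ren {P : Pr} (ρ : ℕ → ℕ) (hP : Dfn P) : Dfn (fun α M v => P α M (fun i => v (ρ i))) := by
  obtain ⟨φ, hφ⟩ := hP
  exact ⟨Fml.ren ρ φ, fun α M v hv => (sat_ren M φ ρ v).trans (hφ α M _ fun i => hv _)⟩

/-- `X_i = X_j` -/
theorem eq (i j : ℕ) : Dfn (fun _ _ v => v i = v j) :=
  ((sub i j).and (sub j i)).iff (fun _ _ _ _ => Set.Subset.antisymm_iff.symm)

/-- `X_i` is empty -/
theorem emp (i : ℕ) : Dfn (fun _ _ v => v i = ∅) := by
  refine (sub (i + 1) 0).all.iff fun α M v hv => ?_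
  constructor
  · intro h
    have := h ∅ (Set.empty_subset _)
    exact Set.subset_empty_iff.1 this
  · intro h S _
    simp [h]

/-- `X_i` is a singleton -/
theorem single (i : ℕ) : Dfn (fun _ M v => ∃ x ∈ M.E, v i = {x}) := by
  refine ((emp i).not.and ((sub 0 (i + 1)).imp ((sub (i + 1) 0).or (emp 0))).all).iff
    fun α M v hv => ?_
  simp only [cns_zero, cns_succ]
  constructor
  · rintro ⟨h1, h2⟩
    obtain ⟨x, hx⟩ := Set.nonempty_iff_ne_empty.2 h1
    have hxE := hv i hx
    refine ⟨x, hxE, ?_⟩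
    have := h2 {x} (Set.singleton_subset_iff.2 hxE) (Set.singleton_subset_iff.2 hx)
    rcases this with h | h
    · exact Set.Subset.antisymm h (Set.singleton_subset_iff.2 hx)
    · exact absurd h (Set.singleton_ne_empty x)
  · rintro ⟨x, hx, h⟩
    rw [h]
    refine ⟨Set.singleton_ne_empty x, fun S _ hS => ?_⟩
    rcases Set.subset_singleton_iff_eq.1 hS with h | h
    · exact Or.inr h
    · exact Or.inl h.ge

/-- quantification over elements -/
theorem exE {P : Pr} (hP : Dfn P) : Dfn (fun α M v => ∃ x ∈ M.E, P α M (cns {x} v)) := by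
  refine ((single 0).and hP).ex.iff fun α M v hv => ?_
  simp only [cns_zero]
  constructor
  · rintro ⟨S, hS, ⟨x, hx, rfl⟩, h⟩
    exact ⟨x, hx, h⟩
  · rintro ⟨x, hx, h⟩
    exact ⟨{x}, Set.singleton_subset_iff.2 hx, ⟨x, hx, rfl⟩, h⟩

/-- quantification over elements -/
theorem allE {P : Pr} (hP : Dfn P) : Dfn (fun α M v => ∀ x ∈ M.E, P α M (cns {x} v)) :=
  hP.not.exE.not.iff (fun α M v _ => by simp)

/-- the union of three sets is dependent -/
theorem dep3 (i j k : ℕ) : Dfn (fun _ M v => ¬ M.Indep (v i ∪ v j ∪ v k)) := by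
  refine ((((sub (i + 1) 0).and (sub (j + 1) 0)).and (sub (k + 1) 0)).imp (ind 0).not).all.iff
    fun α M v hv => ?_
  simp only [cns_zero, cns_succ]
  constructor
  · intro h
    refine h _ ?_ ⟨⟨?_, ?_⟩, ?_⟩
    · exact Set.union_subset (Set.union_subset (hv i) (hv j)) (hv k)
    · exact Set.subset_union_left.trans Set.subset_union_left
    · exact Set.subset_union_right.trans Set.subset_union_left
    · exact Set.subset_union_right
  · rintro h S _ ⟨⟨h1, h2⟩, h3⟩ hS
    exact h (hS.subset (Set.union_subset (Set.union_subset h1 h2) h3))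

/-- block of existential quantifiers -/
theorem exN {P : Pr} (hP : Dfn P) (K : ℕ) : Dfn (fun α M v => ∃ w : ℕ → Set α,
    (∀ i < K, w i ⊆ M.E) ∧ (∀ i, w (K + i) = v i) ∧ P α M w) := by
  induction K with
  | zero =>
    refine hP.iff fun α M v hv => ?_
    constructor
    · intro h
      exact ⟨v, by simp, by simp, h⟩
    · rintro ⟨w, -, h1, h2⟩
      have : w = v := by
        funext i
        have := h1 i
        rwa [Nat.zero_add] at this
      rwa [← this]
  | succ K ih =>
    refine ih.ex.iff fun α M v hv => ?_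
    constructor
    · rintro ⟨S, hS, w, h1, h2, h3⟩
      refine ⟨w, fun i hi => ?_, fun i => ?_, h3⟩
      · rcases Nat.lt_succ_iff_lt_or_eq.1 hi with h | h
        · exact h1 i h
        · have := h2 0
          rw [h, ← Nat.add_zero K, this]
          exact hS
      · have := h2 (i + 1)
        rw [cns_succ] at this
        rw [← this]
        congr 1
        omega
    · rintro ⟨w, h1, h2, h3⟩
      refine ⟨w K, h1 K (Nat.lt_succ_self K), w, fun i hi => h1 i (hi.trans (Nat.lt_succ_self K)),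
        fun i => ?_, h3⟩
      cases i with
      | zero => rfl
      | succ i =>
        have := h2 i
        rw [cns_succ, ← this]
        congr 1
        omega

/-- finite conjunctions -/
theorem ball {ι : Type} (L : List ι) {P : ι → Pr} (h : ∀ c, Dfn (P c)) :
    Dfn (fun α M v => ∀ c ∈ L, P c α M v) := by
  induction L with
  | nil => exact ((sub 0 0).iff fun α M v hv => by simp)
  | cons c L ih => exact ((h c).and ih).iff fun α M v hv => by simp

end Dfn

end Pool.Agent.H761R3.MS0
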