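import Mathlib
import Pool.Agent.Helper844.DPRM

/-! Recursively enumerable sets of naturals are given by finite systems of equations
`x i + x j = x l`, `x i * x j = x l`, `x i = 1` in natural unknowns. -/

set_option autoImplicit false

namespace Pool.Agent.H761R3.Sys

open Pool.Agent.Helper844.Dio

/-- constraints between natural variables `x 0, x 1, ...` -/
inductive Con : Type
  | add (i j l : ℕ) : Con
  | one (i : ℕ) : Con
  | mul (i j l : ℕ) : Con

def Con.Holds (x : ℕ → ℕ) : Con → Prop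
  | .add i j l => x i + x j = x l
  | .one i => x i = 1
  | .mul i j l => x i * x j = x l

def Con.Below (k : ℕ) : Con → Prop
  | .add i j l => i < k ∧ j < k ∧ l < k
  | .one i => i < k
  | .mul i j l => i < k ∧ j < k ∧ l < k

namespace SysAux

/-- constraints over an arbitrary type of variables -/
inductive C (V : Type) : Type
  | add (i j l : V) : C V
  | one (i : V) : C V
  | mul (i j l : V) : C V

def C.Holds {V : Type} (x : V → ℕ) : C V → Prop
  | .add i j l => x i + x j = x l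
  | .one i => x i = 1
  | .mul i j l => x i * x j = x l

def C.map {V W : Type} (f : V → W) : C V → C W
  | .add i j l => .add (f i) (f j) (f l)
  | .one i => .one (f i)
  | .mul i j l => .mul (f i) (f j) (f l)

theorem C.holds_map {V W : Type} (f : V → W) (c : C V) (x : W → ℕ) :
    (c.map f).Holds x ↔ c.Holds (x ∘ f) := by
  cases c <;> rfl

/-- relations given by finite systems -/
def Sy (γ : Type) (R : (γ → ℕ) → Prop) : Prop :=
  ∃ (β : Type) (_ : Fintype β) (L : List (C (γ ⊕ β))),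
    ∀ v, R v ↔ ∃ y : β → ℕ, ∀ c ∈ L, c.Holds (Sum.elim v y)

theorem Sy.congr {γ : Type} {R R' : (γ → ℕ) → Prop} (h : Sy γ R) (e : ∀ v, R' v ↔ R v) :
    Sy γ R' := by
  obtain ⟨β, i, L, hL⟩ := h
  exact ⟨β, i, L, fun v => (e v).trans (hL v)⟩

theorem Sy.reindex {γ γ' : Type} {R : (γ → ℕ) → Prop} (h : Sy γ R) (f : γ → γ') :
    Sy γ' (fun v => R (v ∘ f)) := by
  obtain ⟨β, i, L, hL⟩ := h
  refine ⟨β, i, L.map (C.map (Sum.map f id)), fun v => (hL _).trans ?_⟩
  refine exists_congr fun y => ?_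
  have e : Sum.elim v y ∘ Sum.map f id = Sum.elim (v ∘ f) y := by
    funext g
    rcases g with g | g <;> rfl
  constructor
  · intro hy c hc
    rw [List.mem_map] at hc
    obtain ⟨c, hc, rfl⟩ := hc
    rw [C.holds_map, e]
    exact hy c hc
  · intro hy c hc
    have := hy _ (List.mem_map_of_mem hc)
    rwa [C.holds_map, e] at this

theorem Sy.all {γ δ : Type} [Fintype δ] {R : δ → (γ → ℕ) → Prop} (h : ∀ d, Sy γ (R d)) :
    Sy γ (fun v => ∀ d, R d v) := by
  classical
  choose β i L hL using h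
  let _ := i
  refine ⟨(d : δ) × β d, inferInstance,
    (Finset.univ : Finset δ).toList.flatMap
      (fun d => (L d).map (C.map (Sum.map id (Sigma.mk d)))), fun v => ?_⟩
  have e : ∀ (y : ((d : δ) × β d) → ℕ) (d : δ),
      Sum.elim v y ∘ Sum.map id (Sigma.mk d) = Sum.elim v (fun b => y ⟨d, b⟩) := by
    intro y d
    funext g
    rcases g with g | g <;> rfl
  constructor
  · intro hv
    have hv' : ∀ d, ∃ y : β d → ℕ, ∀ c ∈ L d, c.Holds (Sum.elim v y) := fun d =>
      (hL d v).1 (hv d)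
    choose y hy using hv'
    refine ⟨fun b => y b.1 b.2, fun c hc => ?_⟩
    rw [List.mem_flatMap] at hc
    obtain ⟨d, -, hc⟩ := hc
    rw [List.mem_map] at hc
    obtain ⟨c, hc, rfl⟩ := hc
    rw [C.holds_map, e]
    exact hy d c hc
  · rintro ⟨y, hy⟩ d
    rw [hL]
    refine ⟨fun b => y ⟨d, b⟩, fun c hc => ?_⟩
    rw [← e, ← C.holds_map]
    refine hy _ ?_
    rw [List.mem_flatMap]
    exact ⟨d, by simp, List.mem_map_of_mem hc⟩

theorem Sy.and {γ : Type} {R R' : (γ → ℕ) → Prop} (h : Sy γ R) (h' : Sy γ R') :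
    Sy γ (fun v => R v ∧ R' v) := by
  have : Sy γ (fun v => ∀ b : Bool, (cond b R R') v) :=
    Sy.all (fun b => by cases b <;> assumption)
  refine this.congr fun v => ?_
  constructor
  · rintro ⟨h1, h2⟩ b
    cases b
    · exact h2
    · exact h1
  · intro h
    exact ⟨h true, h false⟩

theorem Sy.ex {γ δ : Type} [Fintype δ] {R : (γ ⊕ δ → ℕ) → Prop} (h : Sy (γ ⊕ δ) R) :
    Sy γ (fun v => ∃ t : δ → ℕ, R (Sum.elim v t)) := by
  obtain ⟨β, i, L, hL⟩ := h
  refine ⟨δ ⊕ β, inferInstance, L.map (C.map (Equiv.sumAssoc γ δ β)), fun v => ?_⟩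
  have e : ∀ (t : δ → ℕ) (y : β → ℕ),
      Sum.elim v (Sum.elim t y) ∘ (Equiv.sumAssoc γ δ β) = Sum.elim (Sum.elim v t) y := by
    intro t y
    funext g
    rcases g with (g | g) | g <;> rfl
  constructor
  · rintro ⟨t, ht⟩
    rw [hL] at ht
    obtain ⟨y, hy⟩ := ht
    refine ⟨Sum.elim t y, fun c hc => ?_⟩
    rw [List.mem_map] at hc
    obtain ⟨c, hc, rfl⟩ := hc
    rw [C.holds_map, e]
    exact hy c hc
  · rintro ⟨y, hy⟩
    refine ⟨y ∘ Sum.inl, ?_⟩
    rw [hL]
    refine ⟨y ∘ Sum.inr, fun c hc => ?_⟩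
    have := hy _ (List.mem_map_of_mem hc)
    rw [C.holds_map, ← Sum.elim_comp_inl_inr y, e] at this
    exact this

/-- functions with a definable graph -/
def Fn (γ : Type) (f : (γ → ℕ) → ℕ) : Prop :=
  Sy (γ ⊕ Unit) (fun w => w (Sum.inr ()) = f (w ∘ Sum.inl))

theorem Fn.congr {γ : Type} {f g : (γ → ℕ) → ℕ} (h : Fn γ f) (e : ∀ v, g v = f v) : Fn γ g :=
  Sy.congr h (fun v => by rw [e])

theorem Fn.reindex {γ γ' : Type} {f : (γ → ℕ) → ℕ} (h : Fn γ f) (g : γ → γ') :
    Fn γ' (fun v => f (v ∘ g)) :=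
  (Sy.reindex h (Sum.map g id)).congr (fun _ => Iff.rfl)

/-- substitution -/
theorem Sy.comp {γ δ : Type} [Fintype δ] {R : (δ → ℕ) → Prop} (h : Sy δ R)
    {F : δ → (γ → ℕ) → ℕ} (hF : ∀ d, Fn γ (F d)) : Sy γ (fun v => R (fun d => F d v)) := by
  have h1 : Sy (γ ⊕ δ) (fun w => R (w ∘ Sum.inr)) := h.reindex Sum.inr
  have h2 : ∀ d, Sy (γ ⊕ δ) (fun w => w (Sum.inr d) = F d (w ∘ Sum.inl)) := fun d =>
    (Sy.reindex (hF d) (Sum.map id (fun _ => d))).congr (fun _ => Iff.rfl)
  refine (h1.and (Sy.all h2)).ex.congr fun v => ?_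
  constructor
  · intro hv
    exact ⟨fun d => F d v, hv, fun d => rfl⟩
  · rintro ⟨t, ht, ht'⟩
    have : t = fun d => F d v := funext fun d => ht' d
    rw [← this]
    exact ht

/-- composition of functions -/
theorem Fn.comp {γ δ : Type} [Fintype δ] {g : (δ → ℕ) → ℕ} (h : Fn δ g)
    (hv : Fn (γ ⊕ Unit) (fun w => w (Sum.inr ())))
    {F : δ → (γ → ℕ) → ℕ} (hF : ∀ d, Fn γ (F d)) : Fn γ (fun v => g (fun d => F d v)) := by
  have := Sy.comp (γ := γ ⊕ Unit) h
    (F := fun d w => Sum.elim (fun d => F d (w ∘ Sum.inl)) (fun _ => w (Sum.inr ())) d) (by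
      rintro (d | ⟨⟩)
      · exact (hF d).reindex Sum.inl
      · exact hv)
  exact this.congr (fun _ => Iff.rfl)

theorem sy_add {γ : Type} (i j l : γ) : Sy γ (fun v => v i + v j = v l) :=
  ⟨Empty, inferInstance, [.add (Sum.inl i) (Sum.inl j) (Sum.inl l)], fun v =>
    ⟨fun h => ⟨Empty.elim, fun c hc => by rw [List.mem_singleton] at hc; subst hc; exact h⟩,
      fun ⟨_, h⟩ => h _ (List.mem_singleton.2 rfl)⟩⟩

theorem sy_one {γ : Type} (i : γ) : Sy γ (fun v => v i = 1) :=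
  ⟨Empty, inferInstance, [.one (Sum.inl i)], fun v =>
    ⟨fun h => ⟨Empty.elim, fun c hc => by rw [List.mem_singleton] at hc; subst hc; exact h⟩,
      fun ⟨_, h⟩ => h _ (List.mem_singleton.2 rfl)⟩⟩

theorem sy_mul {γ : Type} (i j l : γ) : Sy γ (fun v => v i * v j = v l) :=
  ⟨Empty, inferInstance, [.mul (Sum.inl i) (Sum.inl j) (Sum.inl l)], fun v =>
    ⟨fun h => ⟨Empty.elim, fun c hc => by rw [List.mem_singleton] at hc; subst hc; exact h⟩,
      fun ⟨_, h⟩ => h _ (List.mem_singleton.2 rfl)⟩⟩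

theorem sy_zero {γ : Type} (i : γ) : Sy γ (fun v => v i = 0) :=
  (sy_add i i i).congr (fun v => by omega)

theorem sy_eq {γ : Type} (i j : γ) : Sy γ (fun v => v i = v j) := by
  have h := ((sy_zero (γ := γ ⊕ Unit) (Sum.inr ())).and
    (sy_add (γ := γ ⊕ Unit) (Sum.inl i) (Sum.inr ()) (Sum.inl j))).ex
  refine h.congr fun v => ?_
  constructor
  · intro h
    exact ⟨fun _ => 0, rfl, by simpa using h⟩
  · rintro ⟨t, h1, h2⟩
    simp only [Sum.elim_inl, Sum.elim_inr] at h1 h2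
    omega

theorem fn_var {γ : Type} (i : γ) : Fn γ (fun v => v i) :=
  sy_eq (γ := γ ⊕ Unit) (Sum.inr ()) (Sum.inl i)

theorem fn_zero {γ : Type} : Fn γ (fun _ => 0) := sy_zero (γ := γ ⊕ Unit) (Sum.inr ())

theorem fn_one {γ : Type} : Fn γ (fun _ => 1) := sy_one (γ := γ ⊕ Unit) (Sum.inr ())

theorem fn_add2 : Fn (Fin 2) (fun v => v 0 + v 1) :=
  (sy_add (γ := Fin 2 ⊕ Unit) (Sum.inl 0) (Sum.inl 1) (Sum.inr ())).congr (fun v => eq_comm)

theorem Fn.add {γ : Type} {f g : (γ → ℕ) → ℕ} (hf : Fn γ f) (hg : Fn γ g) :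
    Fn γ (fun v => f v + g v) := by
  have := Fn.comp (γ := γ) fn_add2 (fn_var _) (F := ![f, g]) (by
    intro d
    fin_cases d
    · exact hf
    · exact hg)
  exact this

theorem fn_const {γ : Type} (n : ℕ) : Fn γ (fun _ => n) := by
  induction n with
  | zero => exact fn_zero
  | succ n ih => exact ih.add fn_one

theorem fn_cmul {γ : Type} {f : (γ → ℕ) → ℕ} (hf : Fn γ f) (n : ℕ) : Fn γ (fun v => n * f v) := by
  induction n with
  | zero => exact fn_zero.congr (fun v => by simp)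
  | succ n ih => exact (ih.add hf).congr (fun v => by ring)

theorem sy_rel_eq {γ : Type} {f g : (γ → ℕ) → ℕ} (hf : Fn γ f) (hg : Fn γ g) :
    Sy γ (fun v => f v = g v) := by
  have := Sy.comp (γ := γ) (sy_eq (γ := Fin 2) 0 1) (F := ![f, g]) (by
    intro d
    fin_cases d
    · exact hf
    · exact hg)
  exact this

theorem fn_mul2 : Fn (Fin 2) (fun v => v 0 * v 1) :=
  (sy_mul (γ := Fin 2 ⊕ Unit) (Sum.inl 0) (Sum.inl 1) (Sum.inr ())).congr (fun v => eq_comm)

theorem Fn.mul {γ : Type} {f g : (γ → ℕ) → ℕ} (hf : Fn γ f) (hg : Fn γ g) :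
    Fn γ (fun v => f v * g v) := by
  have := Fn.comp (γ := γ) fn_mul2 (fn_var _) (F := ![f, g]) (by
    intro d
    fin_cases d
    · exact hf
    · exact hg)
  exact this

/-- every polynomial is a difference of two definable functions -/
theorem poly_fn {γ : Type} (p : Poly γ) :
    ∃ f g : (γ → ℕ) → ℕ, Fn γ f ∧ Fn γ g ∧ ∀ v, p v = (f v : ℤ) - g v := by
  refine Poly.induction (C := fun p => ∃ f g : (γ → ℕ) → ℕ, Fn γ f ∧ Fn γ g ∧
    ∀ v, p v = (f v : ℤ) - g v) ?_ ?_ ?_ ?_ p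
  · intro i
    exact ⟨fun v => v i, fun _ => 0, fn_var i, fn_zero, fun v => by
      rw [Poly.proj_apply]; simp⟩
  · intro n
    refine ⟨fun _ => n.toNat, fun _ => (-n).toNat, fn_const _, fn_const _, fun v => ?_⟩
    rw [Poly.const_apply]
    simp only
    omega
  · rintro p1 p2 ⟨f, g, hf, hg, e⟩ ⟨f', g', hf', hg', e'⟩
    refine ⟨fun v => f v + g' v, fun v => g v + f' v, hf.add hg', hg.add hf', fun v => ?_⟩
    rw [Poly.sub_apply, e, e']
    push_cast
    ring
  · rintro p1 p2 ⟨f, g, hf, hg, e⟩ ⟨f', g', hf', hg', e'⟩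
    refine ⟨fun v => f v * f' v + g v * g' v, fun v => f v * g' v + g v * f' v,
      (hf.mul hf').add (hg.mul hg'), (hf.mul hg').add (hg.mul hf'), fun v => ?_⟩
    rw [Poly.mul_apply, e, e']
    push_cast
    ring

theorem sy_dioph {S : ℕ → Prop} (hS : Dioph {v : Unit → ℕ | S (v ())}) :
    Sy Unit (fun v => S (v ())) := by
  obtain ⟨δ, _, p, hp⟩ := finite_dummies hS
  obtain ⟨f, g, hf, hg, e⟩ := poly_fn p
  refine (sy_rel_eq hf hg).ex.congr fun v => ?_
  refine (hp v).trans (exists_congr fun t => ?_)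
  rw [e]
  omega

/-- translation to constraints on `x 0, x 1, ...` -/
def C.toCon {V : Type} (f : V → ℕ) : C V → Con
  | .add i j l => .add (f i) (f j) (f l)
  | .one i => .one (f i)
  | .mul i j l => .mul (f i) (f j) (f l)

theorem C.toCon_holds {V : Type} (f : V → ℕ) (c : C V) (x : ℕ → ℕ) :
    (c.toCon f).Holds x ↔ c.Holds (x ∘ f) := by
  cases c <;> rfl

theorem C.toCon_below {V : Type} (f : V → ℕ) (k : ℕ) (hf : ∀ v, f v < k) (c : C V) :
    (c.toCon f).Below k := by
  cases c <;> simp [C.toCon, Con.Below, hf]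

end SysAux

open SysAux in
theorem exists_sys (S : ℕ → Prop) (hS : REPred S) :
    ∃ (k : ℕ) (L : List Con), 1 ≤ k ∧ (∀ c ∈ L, c.Below k) ∧
      ∀ n, S n ↔ ∃ x : ℕ → ℕ, x 0 = n ∧ ∀ c ∈ L, c.Holds x := by
  classical
  obtain ⟨β, _, L, hL⟩ := sy_dioph (dprm hS)
  let e := Fintype.equivFin β
  let m := Fintype.card β
  let f : Unit ⊕ β → ℕ := Sum.elim (fun _ => 0) (fun b => (e b : ℕ) + 1)
  have hf : ∀ v, f v < m + 1 := by
    rintro (⟨⟩ | b)
    · exact Nat.succ_pos m
    · exact Nat.succ_lt_succ (e b).2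
  refine ⟨m + 1, L.map (C.toCon f), by omega, ?_, ?_⟩
  · intro c hc
    rw [List.mem_map] at hc
    obtain ⟨c, -, rfl⟩ := hc
    exact C.toCon_below f _ hf c
  · intro n
    refine (hL (fun _ => n)).trans ?_
    constructor
    · rintro ⟨y, hy⟩
      refine ⟨fun j => if j = 0 then n else if h : j - 1 < m then y (e.symm ⟨j - 1, h⟩) else 0,
        by simp, fun c hc => ?_⟩
      rw [List.mem_map] at hc
      obtain ⟨c, hc, rfl⟩ := hc
      rw [C.toCon_holds]
      convert hy c hc using 1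
      funext v
      rcases v with ⟨⟩ | b
      · rfl
      · have hb : (e b : ℕ) < m := (e b).2
        simp [f, hb, m]
    · rintro ⟨x, hx, h⟩
      refine ⟨fun b => x (e b + 1), fun c hc => ?_⟩
      have := h _ (List.mem_map_of_mem hc)
      rw [C.toCon_holds] at this
      convert this using 1
      funext v
      rcases v with ⟨⟩ | b
      · exact hx.symm
      · rfl

end Pool.Agent.H761R3.Sys
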