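import Mathlib
import Pool.Agent.H761R3.MS0
import Pool.Agent.H761R3.Sys

/-! Cardinalities of sets of matroid elements satisfy a given system of equations: an existential
monadic second-order property. -/

set_option autoImplicit false

namespace Pool.Agent.H761R3.MS0

open Fml Pool.Agent.H761R3.Sys

/-- the set `R` of elements codes a binary relation -/
def rel {α : Type} (M : Matroid α) (R : Set α) (x y : α) : Prop :=
  ∃ r ∈ R, ¬ M.Indep ({x} ∪ {y} ∪ {r})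

/-- `R` codes a map from `Z` to `X` -/
def Map {α : Type} (M : Matroid α) (R Z X : Set α) : Prop :=
  ∀ z ∈ Z, ∃! x, x ∈ X ∧ rel M R z x

/-- `R` codes a bijection from `Z` to `X` -/
def Bij {α : Type} (M : Matroid α) (R Z X : Set α) : Prop :=
  Map M R Z X ∧ ∀ x ∈ X, ∃! z, z ∈ Z ∧ rel M R z x

/-- a partition into two parts -/
def Part2 {α : Type} (M : Matroid α) (Z Z' Z'' : Set α) : Prop :=
  ∀ z ∈ M.E, (z ∈ Z ↔ (z ∈ Z' ∨ z ∈ Z'')) ∧ ¬ (z ∈ Z' ∧ z ∈ Z'')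

/-- the cardinalities of the sets satisfy the constraint -/
def HoldsM {α : Type} (M : Matroid α) (w : ℕ → Set α) : Con → Prop
  | .one i => ∃! x, x ∈ M.E ∧ x ∈ w (2 * i)
  | .add i j l => ∃ Z', Z' ⊆ M.E ∧ ∃ Z'', Z'' ⊆ M.E ∧ ∃ R', R' ⊆ M.E ∧ ∃ R'', R'' ⊆ M.E ∧
      Part2 M (w (2 * l + 1)) Z' Z'' ∧ Bij M R' Z' (w (2 * i)) ∧ Bij M R'' Z'' (w (2 * j))
  | .mul i j l => ∃ P, P ⊆ M.E ∧ ∃ Q, Q ⊆ M.E ∧ Map M P (w (2 * l + 1)) (w (2 * i)) ∧
      Map M Q (w (2 * l + 1)) (w (2 * j)) ∧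
      ∀ x ∈ w (2 * i), ∀ y ∈ w (2 * j), ∃! z, z ∈ w (2 * l + 1) ∧ (rel M P z x ∧ rel M Q z y)

/-- the whole system -/
def SysM {α : Type} (M : Matroid α) (k : ℕ) (L : List Con) (w : ℕ → Set α) : Prop :=
  (∀ i ∈ List.range k, ∃ R, R ⊆ M.E ∧ Bij M R (w (2 * i + 1)) (w (2 * i))) ∧
    ∀ c ∈ L, HoldsM M w c

/-- the system has a solution in which the first unknown is the cardinality of `v 0` -/
def Sol {α : Type} (M : Matroid α) (k : ℕ) (L : List Con) (v : ℕ → Set α) : Prop :=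
  ∃ w : ℕ → Set α, (∀ i < 2 * k, w i ⊆ M.E) ∧ (∀ i, w (2 * k + i) = v i) ∧
    (w 0 = w (2 * k) ∧ SysM M k L w)

namespace Dfn

theorem exU {P : Pr} (hP : Dfn P) : Dfn (fun α M v => ∃! x, x ∈ M.E ∧ P α M (cns {x} v)) := by
  have h1 : Dfn (fun α M w => P α M (fun i => w ((fun i : ℕ => if i = 0 then 0 else i + 1) i))) :=
    hP.ren (fun i => if i = 0 then 0 else i + 1)
  refine (hP.and (h1.imp (eq 0 1)).allE).exE.iff fun α M v hv => ?_
  have e : ∀ x y : α, (fun i => (cns {y} (cns {x} v) : ℕ → Set α)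
      ((fun i : ℕ => if i = 0 then 0 else i + 1) i)) = cns {y} v := by
    intro x y
    funext i
    cases i <;> simp
  simp only [e]
  constructor
  · rintro ⟨x, hx, h1, h2⟩
    refine ⟨x, ⟨hx, h1⟩, fun y hy => ?_⟩
    have := h2 y hy.1 hy.2
    simpa using this
  · rintro ⟨x, ⟨hx, h1⟩, h2⟩
    refine ⟨x, hx, h1, fun y hy h => ?_⟩
    have := h2 y ⟨hy, h⟩
    simp [this]

theorem relD (r a b : ℕ) : Dfn (fun _ M v => ∃ y ∈ M.E, {y} ⊆ v r ∧ ¬ M.Indep (v a ∪ v b ∪ {y})) :=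
  ((sub 0 (r + 1)).and (dep3 (a + 1) (b + 1) 0)).exE

theorem rel_iff {α : Type} {M : Matroid α} {R : Set α} (hR : R ⊆ M.E) (x y : α) :
    (∃ r ∈ M.E, {r} ⊆ R ∧ ¬ M.Indep ({x} ∪ {y} ∪ {r})) ↔ rel M R x y := by
  constructor
  · rintro ⟨r, _, h1, h2⟩
    exact ⟨r, h1 rfl, h2⟩
  · rintro ⟨r, h1, h2⟩
    exact ⟨r, hR h1, Set.singleton_subset_iff.2 h1, h2⟩

theorem exU_iff {α : Type} {M : Matroid α} {X : Set α} (hX : X ⊆ M.E) {Q Q' : α → Prop}
    (h : ∀ x, Q x ↔ Q' x) : (∃! x, x ∈ M.E ∧ ({x} ⊆ X ∧ Q x)) ↔ ∃! x, x ∈ X ∧ Q' x := by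
  refine existsUnique_congr fun x => ?_
  rw [Set.singleton_subset_iff, h]
  constructor
  · rintro ⟨_, h⟩
    exact h
  · rintro ⟨h1, h2⟩
    exact ⟨hX h1, h1, h2⟩

theorem allE_iff {α : Type} {M : Matroid α} {X : Set α} (hX : X ⊆ M.E) {Q Q' : α → Prop}
    (h : ∀ x, Q x ↔ Q' x) : (∀ x ∈ M.E, ({x} ⊆ X → Q x)) ↔ ∀ x ∈ X, Q' x := by
  constructor
  · intro h1 x hx
    exact (h x).1 (h1 x (hX hx) (Set.singleton_subset_iff.2 hx))
  · intro h1 x _ hx
    exact (h x).2 (h1 x (Set.singleton_subset_iff.1 hx))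

theorem map (r z x : ℕ) : Dfn (fun _ M v => Map M (v r) (v z) (v x)) := by
  refine ((sub 0 (z + 1)).imp ((sub 0 (x + 2)).and (relD (r + 2) 1 0)).exU).allE.iff
    fun α M v hv => ?_
  simp only [cns_zero, cns_one, cns_succ]
  refine allE_iff (hv z) fun a => ?_
  exact exU_iff (hv x) fun b => rel_iff (hv r) a b

theorem bij (r z x : ℕ) : Dfn (fun _ M v => Bij M (v r) (v z) (v x)) := by
  refine ((map r z x).and
    ((sub 0 (x + 1)).imp ((sub 0 (z + 2)).and (relD (r + 2) 0 1)).exU).allE).iff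
    fun α M v hv => ?_
  simp only [cns_zero, cns_one, cns_succ]
  refine and_congr Iff.rfl ?_
  refine allE_iff (hv x) fun a => ?_
  exact exU_iff (hv z) fun b => rel_iff (hv r) b a

theorem part2 (z z' z'' : ℕ) : Dfn (fun _ M v => Part2 M (v z) (v z') (v z'')) := by
  have hs : ∀ j, Dfn (fun _ _ v => v 0 ⊆ v (j + 1)) := fun j => sub 0 (j + 1)
  refine ((((hs z).imp ((hs z').or (hs z''))).and (((hs z').or (hs z'')).imp (hs z))).and
    ((hs z').and (hs z'')).not).allE.iff fun α M v hv => ?_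
  simp only [cns_zero, cns_succ, Set.singleton_subset_iff]
  refine forall_congr' fun x => imp_congr_right fun _ => and_congr ?_ Iff.rfl
  exact iff_iff_implies_and_implies.symm

theorem holdsM (c : Con) : Dfn (fun _ M v => HoldsM M v c) := by
  cases c with
  | one i =>
    refine (sub 0 (2 * i + 1)).exU.iff fun α M v hv => ?_
    simp only [cns_zero, cns_succ, Set.singleton_subset_iff]
    rfl
  | add i j l =>
    refine ((part2 (2 * l + 1 + 4) 3 2).and ((bij 1 3 (2 * i + 4)).and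
      (bij 0 2 (2 * j + 4)))).ex.ex.ex.ex.iff fun α M v hv => Iff.rfl
  | mul i j l =>
    have h1 : Dfn (fun _ M v => ∀ x ∈ v (2 * i + 2), ∀ y ∈ v (2 * j + 2),
        ∃! z, z ∈ v (2 * l + 1 + 2) ∧ (rel M (v 1) z x ∧ rel M (v 0) z y)) := by
      refine ((sub 0 (2 * i + 2 + 1)).imp ((sub 0 (2 * j + 2 + 2)).imp
        ((sub 0 (2 * l + 1 + 2 + 3)).and ((relD (1 + 3) 0 2).and (relD (0 + 3) 0 1))).exU).allE).allE.iff
          fun α M v hv => ?_
      simp only [cns_zero, cns_one, cns_two, cns_succ]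
      refine allE_iff (hv _) fun x => allE_iff (hv _) fun y => exU_iff (hv _) fun z => ?_
      exact and_congr (rel_iff (hv _) _ _) (rel_iff (hv _) _ _)
    refine ((map 1 (2 * l + 1 + 2) (2 * i + 2)).and ((map 0 (2 * l + 1 + 2) (2 * j + 2)).and
      h1)).ex.ex.iff fun α M v hv => Iff.rfl

theorem sysM (k : ℕ) (L : List Con) : Dfn (fun _ M v => SysM M k L v) := by
  refine (ball (List.range k) fun i => ?_).and (ball L fun c => holdsM c)
  exact (bij 0 (2 * i + 1 + 1) (2 * i + 1)).ex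

theorem sol (k : ℕ) (L : List Con) : Dfn (fun _ M v => Sol M k L v) :=
  ((eq 0 (2 * k)).and (sysM k L)).exN (2 * k)

/-- `X_0` arises from `X_1` by adding one element -/
theorem cov : Dfn (fun _ M v => ∃ x ∈ M.E, x ∉ v 1 ∧ v 0 = insert x (v 1)) := by
  refine ((sub 0 2).not.and (((sub 2 1).and (sub 0 1)).and
    ((sub 0 2).imp ((sub 0 3).or (eq 0 1))).allE)).exE.iff fun α M v hv => ?_
  refine exists_congr fun x => and_congr_right fun hx => ?_
  simp only [cns_zero, cns_one, cns_two, cns_three, Set.singleton_subset_iff,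
    Set.singleton_eq_singleton_iff]
  refine and_congr Iff.rfl ?_
  constructor
  · rintro ⟨⟨h1, h2⟩, h3⟩
    refine Set.Subset.antisymm (fun y hy => ?_) (Set.insert_subset h2 h1)
    rcases h3 y (hv 0 hy) hy with h | h
    · exact Or.inr h
    · exact Or.inl h
  · intro h
    rw [h]
    refine ⟨⟨Set.subset_insert _ _, Set.mem_insert _ _⟩, fun y _ hy => ?_⟩
    rcases hy with h | h
    · exact Or.inr h
    · exact Or.inl h

end Dfn

/-! ### Soundness -/

theorem Bij.ncard_eq {α : Type} {M : Matroid α} {R Z X : Set α} (h : Bij M R Z X) :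
    Z.ncard = X.ncard := by
  obtain ⟨h1, h2⟩ := h
  choose f hf hf' using h1
  refine Set.ncard_congr f (fun z hz => (hf z hz).1) (fun a b ha hb hab => ?_) (fun x hx => ?_)
  · have ha' := hf a ha
    have hb' := hf b hb
    rw [← hab] at hb'
    exact (h2 _ ha'.1).unique ⟨ha, ha'.2⟩ ⟨hb, hb'.2⟩
  · obtain ⟨z, hz, _⟩ := h2 x hx
    exact ⟨z, hz.1, (hf' z hz.1 x ⟨hx, hz.2⟩).symm⟩

theorem HoldsM.holds {α : Type} {M : Matroid α} {k : ℕ} {w : ℕ → Set α} {c : Con}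
    (hfin : M.E.Finite) (hc : c.Below k) (hw : ∀ i < 2 * k, w i ⊆ M.E)
    (heq : ∀ i < k, (w (2 * i + 1)).ncard = (w (2 * i)).ncard) (h : HoldsM M w c) :
    c.Holds (fun i => (w (2 * i)).ncard) := by
  cases c with
  | one i =>
    obtain ⟨x, hx, hx'⟩ := h
    change (w (2 * i)).ncard = 1
    have hi : i < k := hc
    rw [Set.ncard_eq_one]
    refine ⟨x, Set.Subset.antisymm (fun y hy => hx' y ⟨hw _ (by omega) hy, hy⟩) ?_⟩
    exact Set.singleton_subset_iff.2 hx.2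
  | add i j l =>
    obtain ⟨Z', hZ', Z'', hZ'', R', _, R'', _, h1, h2, h3⟩ := h
    obtain ⟨hi, hj, hl⟩ := hc
    change (w (2 * i)).ncard + (w (2 * j)).ncard = (w (2 * l)).ncard
    rw [← heq l hl, ← h2.ncard_eq, ← h3.ncard_eq]
    have hu : w (2 * l + 1) = Z' ∪ Z'' := by
      ext x
      constructor
      · intro hx
        exact (h1 x (hw _ (by omega) hx)).1.1 hx
      · rintro (hx | hx)
        · exact (h1 x (hZ' hx)).1.2 (Or.inl hx)
        · exact (h1 x (hZ'' hx)).1.2 (Or.inr hx)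
    have hd : Disjoint Z' Z'' := by
      rw [Set.disjoint_left]
      intro x hx hx'
      exact (h1 x (hZ' hx)).2 ⟨hx, hx'⟩
    rw [hu, Set.ncard_union_eq hd (hfin.subset hZ') (hfin.subset hZ'')]
  | mul i j l =>
    obtain ⟨P, _, Q, _, h1, h2, h3⟩ := h
    obtain ⟨hi, hj, hl⟩ := hc
    change (w (2 * i)).ncard * (w (2 * j)).ncard = (w (2 * l)).ncard
    rw [← heq l hl, ← Set.ncard_prod]
    symm
    choose p hp hp' using h1
    choose q hq hq' using h2
    refine Set.ncard_congr (fun z hz => (p z hz, q z hz)) (fun z hz => ?_) ?_ ?_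
    · exact ⟨(hp z hz).1, (hq z hz).1⟩
    · intro a b ha hb hab
      simp only [Prod.mk.injEq] at hab
      have hpb := (hp b hb).2
      have hqb := (hq b hb).2
      rw [← hab.1] at hpb
      rw [← hab.2] at hqb
      exact (h3 _ (hp a ha).1 _ (hq a ha).1).unique ⟨ha, (hp a ha).2, (hq a ha).2⟩
        ⟨hb, hpb, hqb⟩
    · rintro ⟨x, y⟩ ⟨hx, hy⟩
      obtain ⟨z, hz, _⟩ := h3 x hx y hy
      refine ⟨z, hz.1, ?_⟩
      rw [Prod.mk.injEq]
      exact ⟨(hp' z hz.1 x ⟨hx, hz.2.1⟩).symm, (hq' z hz.1 y ⟨hy, hz.2.2⟩).symm⟩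

theorem Sol.sound {α : Type} {M : Matroid α} {k : ℕ} {L : List Con} {v : ℕ → Set α}
    (hfin : M.E.Finite) (hL : ∀ c ∈ L, c.Below k) (h : Sol M k L v) :
    ∃ x : ℕ → ℕ, x 0 = (v 0).ncard ∧ ∀ c ∈ L, c.Holds x := by
  obtain ⟨w, h1, h2, h3, h4, h5⟩ := h
  refine ⟨fun i => (w (2 * i)).ncard, ?_, fun c hc => ?_⟩
  · change (w 0).ncard = _
    rw [h3]
    have := h2 0
    rw [Nat.add_zero] at this
    rw [this]
  · refine (h5 c hc).holds hfin (hL c hc) h1 fun i hi => ?_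
    obtain ⟨R, _, hR⟩ := h4 i (List.mem_range.2 hi)
    exact hR.ncard_eq

end Pool.Agent.H761R3.MS0
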