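import Mathlib
import Pool.Agent.H761R3.Rel

/-! The sentences `σ n`. -/

set_option autoImplicit false

namespace Pool.Agent.H761R3.MS0

open Fml Pool.Agent.H761R3.Sys

/-- the halting set -/
def Halt (n : ℕ) : Prop := (Nat.Partrec.Code.eval (Denumerable.ofNat Nat.Partrec.Code n) 0).Dom

theorem halt_not_computable : ¬ ComputablePred Halt := by
  intro h
  refine ComputablePred.halting_problem 0 ?_
  have : ManyOneReducible (fun c : Nat.Partrec.Code => (Nat.Partrec.Code.eval c 0).Dom) Halt := by
    refine ⟨Encodable.encode, Computable.encode, ?_⟩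
    intro c
    simp [Halt, Denumerable.ofNat_encode]
  exact ComputablePred.computable_of_manyOneReducible this h

theorem halt_re : REPred Halt := by
  have h : Partrec (fun n : ℕ => Nat.Partrec.Code.eval (Denumerable.ofNat Nat.Partrec.Code n) 0) :=
    Nat.Partrec.Code.eval_part.comp (Computable.ofNat _) (Computable.const 0)
  exact h.dom_re

/-- one more element, then `g` -/
def step (cf g : Fml) : Fml := ex (Fml.and cf g)

theorem code_ex (φ : Fml) : code (ex φ) = Nat.pair 2 (Nat.pair 4 (Nat.pair 2 (code φ))) := rfl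

theorem code_step (cf g : Fml) : code (step cf g) =
    Nat.pair 2 (Nat.pair 4 (Nat.pair 2 (Nat.pair 3 (Nat.pair (code cf) (code g))))) := rfl

theorem code_iter (cf g : Fml) (n : ℕ) : code ((step cf)^[n] g) =
    (fun c => Nat.pair 2 (Nat.pair 4 (Nat.pair 2 (Nat.pair 3 (Nat.pair (code cf) c)))))^[n] (code g) := by
  induction n generalizing g with
  | zero => rfl
  | succ n ih =>
    rw [Function.iterate_succ_apply, Function.iterate_succ_apply, ih, code_step]

/-- the reduction: for each recursively enumerable set there are sentences, computable from `n` -/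
theorem exists_sentences (S : ℕ → Prop) (hS : REPred S) :
    ∃ (k : ℕ) (L : List Con) (σ : ℕ → Fml), 1 ≤ k ∧ (∀ c ∈ L, c.Below k) ∧
      (∀ n, S n ↔ ∃ x : ℕ → ℕ, x 0 = n ∧ ∀ c ∈ L, c.Holds x) ∧
      (Computable fun n => code (σ n)) ∧ (∀ n, (σ n).IsSentence) ∧
      ∀ (n : ℕ) (α : Type) (M : Matroid α), M.E.Finite →
        (Sat M (σ n) (fun _ => ∅) ↔
          ¬ ∃ X : Set α, X ⊆ M.E ∧ X.ncard = n ∧ Sol M k L (fun _ => X)) := by
  obtain ⟨k, L, hk, hL, hx⟩ := exists_sys S hS
  obtain ⟨Φ, hΦ⟩ := Dfn.sol k L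
  obtain ⟨cf, hcf⟩ := Dfn.cov
  obtain ⟨ef, hef⟩ := Dfn.emp 0
  let Φ' : Fml := ren (fun _ => 0) Φ
  let cf' : Fml := ren (fun i => min i 1) cf
  let ef' : Fml := ren (fun _ => 0) ef
  have hΦ' : ∀ (α : Type) (M : Matroid α) (v : ℕ → Set α), (∀ i, v i ⊆ M.E) →
      (Sat M Φ' v ↔ Sol M k L (fun _ => v 0)) := fun α M v hv =>
    (sat_ren M Φ _ v).trans (hΦ α M _ fun i => hv 0)
  have hcf' : ∀ (α : Type) (M : Matroid α) (v : ℕ → Set α), (∀ i, v i ⊆ M.E) →
      (Sat M cf' v ↔ ∃ x ∈ M.E, x ∉ v 1 ∧ v 0 = insert x (v 1)) := fun α M v hv =>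
    (sat_ren M cf _ v).trans (hcf α M _ fun i => hv _)
  have hef' : ∀ (α : Type) (M : Matroid α) (v : ℕ → Set α), (∀ i, v i ⊆ M.E) →
      (Sat M ef' v ↔ v 0 = ∅) := fun α M v hv =>
    (sat_ren M ef _ v).trans (hef α M _ fun i => hv _)
  have fΦ : FreeBelow 1 Φ' := freeBelow_ren _ _ _ fun _ => Nat.one_pos
  have fcf : FreeBelow 2 cf' := freeBelow_ren _ _ _ fun i => by
    omega
  have fef : FreeBelow 1 ef' := freeBelow_ren _ _ _ fun _ => Nat.one_pos
  have fG : ∀ n, FreeBelow 1 ((step cf')^[n] Φ') := by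
    intro n
    induction n with
    | zero => exact fΦ
    | succ n ih =>
      rw [Function.iterate_succ_apply']
      exact ⟨fcf, ih.mono (by omega)⟩
  have hG : ∀ (α : Type) (M : Matroid α), M.E.Finite → ∀ (n : ℕ) (v : ℕ → Set α),
      (∀ i, v i ⊆ M.E) → (Sat M ((step cf')^[n] Φ') v ↔
        ∃ X : Set α, X ⊆ M.E ∧ v 0 ⊆ X ∧ (X \ v 0).ncard = n ∧ Sol M k L (fun _ => X)) := by
    intro α M hfin n
    induction n with
    | zero =>
      intro v hv
      refine (hΦ' α M v hv).trans ?_
      constructor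
      · intro h
        exact ⟨v 0, hv 0, le_rfl, by simp, h⟩
      · rintro ⟨X, hX, h1, h2, h3⟩
        rw [Set.ncard_eq_zero (hfin.subset (Set.sdiff_subset.trans hX)),
          Set.sdiff_eq_empty] at h2
        have : v 0 = X := Set.Subset.antisymm h1 h2
        rwa [this]
    | succ n ih =>
      intro v hv
      rw [Function.iterate_succ_apply']
      refine (sat_ex M _ v).trans ?_
      constructor
      · rintro ⟨S, hS, h1, h2⟩
        have hv' := cns_sub hS hv
        obtain ⟨x, hx, hxv, hSx⟩ := (hcf' α M _ hv').1 h1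
        obtain ⟨X, hX, h3, h4, h5⟩ := (ih _ hv').1 h2
        simp only [cns_zero, cns_one] at hxv hSx h3 h4
        have hxX : x ∈ X := h3 (by rw [hSx]; exact Set.mem_insert _ _)
        refine ⟨X, hX, fun y hy => h3 (by rw [hSx]; exact Or.inr hy), ?_, h5⟩
        have : X \ v 0 = insert x (X \ S) := by
          ext y
          rw [hSx]
          simp only [Set.mem_sdiff, Set.mem_insert_iff]
          constructor
          · rintro ⟨h, h'⟩
            by_cases hy : y = x
            · exact Or.inl hy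
            · exact Or.inr ⟨h, by tauto⟩
          · rintro (h | h)
            · rw [h]
              exact ⟨hxX, hxv⟩
            · exact ⟨h.1, by tauto⟩
        rw [this, Set.ncard_insert_of_notMem _ (hfin.subset (Set.sdiff_subset.trans hX)), h4]
        rw [hSx]
        simp
      · rintro ⟨X, hX, h1, h2, h3⟩
        have hne : (X \ v 0).Nonempty := by
          rw [← Set.ncard_pos (hfin.subset (Set.sdiff_subset.trans hX)), h2]
          omega
        obtain ⟨x, hxX, hxv⟩ := hne
        have hS : insert x (v 0) ⊆ M.E := Set.insert_subset (hX hxX) (hv 0)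
        have hv' := cns_sub hS hv
        refine ⟨insert x (v 0), hS, (hcf' α M _ hv').2 ⟨x, hX hxX, hxv, rfl⟩,
          (ih _ hv').2 ⟨X, hX, Set.insert_subset hxX h1, ?_, h3⟩⟩
        simp only [cns_zero]
        have : X \ v 0 = insert x (X \ insert x (v 0)) := by
          ext y
          simp only [Set.mem_sdiff, Set.mem_insert_iff]
          constructor
          · rintro ⟨h, h'⟩
            by_cases hy : y = x
            · exact Or.inl hy
            · exact Or.inr ⟨h, by tauto⟩
          · rintro (h | h)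
            · rw [h]
              exact ⟨hxX, hxv⟩
            · exact ⟨h.1, by tauto⟩
        rw [this, Set.ncard_insert_of_notMem (by simp)
          (hfin.subset (Set.sdiff_subset.trans hX))] at h2
        omega
  refine ⟨k, L, fun n => neg (ex (Fml.and ef' ((step cf')^[n] Φ'))), hk, hL, hx, ?_, ?_, ?_⟩
  · have h1 : Primrec fun n : ℕ => (fun c => Nat.pair 2 (Nat.pair 4 (Nat.pair 2 (Nat.pair 3
        (Nat.pair (code cf') c)))))^[n] (code Φ') := by
      refine Primrec.nat_iterate (h := fun _ c => Nat.pair 2 (Nat.pair 4 (Nat.pair 2 (Nat.pair 3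
        (Nat.pair (code cf') c))))) Primrec.id (Primrec.const _) ?_
      have p : ∀ (m : ℕ) {f : ℕ × ℕ → ℕ}, Primrec f → Primrec fun x => Nat.pair m (f x) :=
        fun m f hf => Primrec₂.natPair.comp (Primrec.const m) hf
      exact p 2 (p 4 (p 2 (p 3 (p _ Primrec.snd))))
    have p : ∀ (m : ℕ) {f : ℕ → ℕ}, Primrec f → Primrec fun x => Nat.pair m (f x) :=
      fun m f hf => Primrec₂.natPair.comp (Primrec.const m) hf
    have h2 := p 2 (p 2 (p 4 (p 2 (p 3 (p (code ef') h1)))))
    refine h2.to_comp.of_eq fun n => ?_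
    rw [← code_iter]
    rfl
  · intro n
    exact ⟨fef, fG n⟩
  · intro n α M hfin
    refine not_congr ((sat_ex M _ _).trans ?_)
    constructor
    · rintro ⟨S, hS, h1, h2⟩
      have hv' := cns_sub hS (v := fun _ => (∅ : Set α)) (fun _ => Set.empty_subset _)
      have h1' : S = ∅ := (hef' α M _ hv').1 h1
      obtain ⟨X, hX, _, h4, h5⟩ := (hG α M hfin n _ hv').1 h2
      refine ⟨X, hX, ?_, h5⟩
      rw [← h4, cns_zero, h1', Set.sdiff_empty]
    · rintro ⟨X, hX, h1, h2⟩
      have hv' := cns_sub (Set.empty_subset M.E) (v := fun _ => (∅ : Set α))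
        (fun _ => Set.empty_subset _)
      refine ⟨∅, Set.empty_subset _, (hef' α M _ hv').2 rfl, (hG α M hfin n _ hv').2
        ⟨X, hX, Set.empty_subset _, ?_, h2⟩⟩
      rw [cns_zero, Set.sdiff_empty, h1]

/-- If every solvable system has a model in the class `C`, the theory of `C` is undecidable: no
partial computable function is defined on the Gödel numbers of all sentences and correctly tells
whether the sentence holds in all members of `C`. -/
theorem undecidable_of_models (C : (α : Type) → Matroid α → Prop)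
    (hfin : ∀ α M, C α M → M.E.Finite)
    (hmod : ∀ (k : ℕ) (L : List Con) (x : ℕ → ℕ), (∀ c ∈ L, c.Below k) → 1 ≤ k →
      (∀ c ∈ L, c.Holds x) →
      ∃ (α : Type) (M : Matroid α), C α M ∧ ∃ X : Set α, X ⊆ M.E ∧ X.ncard = x 0 ∧
        Sol M k L (fun _ => X)) :
    ¬ ∃ f : ℕ →. Bool, Partrec f ∧ ∀ σ : Fml, σ.IsSentence →
      ∃ b : Bool, f σ.code = Part.some b ∧
        (b = true ↔ ∀ (α : Type) (M : Matroid α), C α M → Sat M σ (fun _ => ∅)) := by
  rintro ⟨f, hf, hfe⟩
  obtain ⟨k, L, σ, hk, hL, hx, hσ, hs, h⟩ := exists_sentences Halt halt_re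
  apply halt_not_computable
  have key : ∀ n, Halt n ↔ ¬ (∀ (α : Type) (M : Matroid α), C α M → Sat M (σ n) (fun _ => ∅)) := by
    intro n
    constructor
    · rintro hn h2
      obtain ⟨x, hx0, hxL⟩ := (hx n).1 hn
      obtain ⟨α, M, hC, X, hX, h3, h4⟩ := hmod k L x hL hk hxL
      exact (h n α M (hfin α M hC)).1 (h2 α M hC) ⟨X, hX, h3.trans hx0, h4⟩
    · intro h1
      by_contra hn
      refine h1 fun α M hC => (h n α M (hfin α M hC)).2 ?_
      rintro ⟨X, hX, h3, h4⟩
      obtain ⟨x, hx0, hxL⟩ := h4.sound (hfin α M hC) hL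
      exact hn ((hx n).2 ⟨x, hx0.trans h3, hxL⟩)
  choose b hb hb' using fun n => hfe (σ n) (hs n)
  have hbc : Computable b := by
    have h1 : Partrec fun n => f (code (σ n)) := hf.comp hσ
    have h2 : (fun n => f (code (σ n))) = (b : ℕ →. Bool) := by
      funext n
      exact hb n
    rw [h2] at h1
    exact h1
  refine ComputablePred.computable_iff.2 ⟨fun n => !b n, Primrec.not.to_comp.comp hbc, ?_⟩
  funext n
  simp only [eq_iff_iff]
  rw [key n, ← hb' n]
  simp

end Pool.Agent.H761R3.MS0
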