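import Mathlib
import Pool.Agent.H761R3.Gain2
import Pool.Agent.H761R3.Red

/-! Frame independence = line independence, and the models. -/

set_option autoImplicit false

namespace Pool.Agent.H761R3.Gain

open GainGraph Pool.Agent.H761R3.MS0 Pool.Agent.H761R3.Sys

section

variable {ι : Type} {H : Type*} [Group H] {g h : ι → H}

theorem T_ncard (i j : ι) : (El.T i j : Set (El ι)).ncard = 3 := by
  rw [Set.ncard_eq_three]
  exact ⟨_, _, _, by simp, by simp, by simp, rfl⟩

theorem LI.indep [Finite ι] [Nonempty ι] (hg : Gen g h) {X : Set (El ι)} (hX : El.LI X) :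
    (SG g h).Indep X := by
  have lg : ∀ κ : Fin 3, (X ∩ El.Lg κ).ncard ≤ 2 := fun κ => hX.2 _ (Or.inl ⟨κ, rfl⟩)
  have tri : ∀ e f x : El ι, e ∈ X → f ∈ X → x ∈ X → e.cl ≠ f.cl → f.cl ≠ x.cl → e.cl ≠ x.cl →
      X = {e, f, x} := by
    intro e f x he hf hx h1 h2 h3
    symm
    have h4 : ({e, f, x} : Set (El ι)).ncard = 3 := by
      rw [Set.ncard_eq_three]
      exact ⟨e, f, x, fun h => h1 (by rw [h]), fun h => h3 (by rw [h]), fun h => h2 (by rw [h]), rfl⟩
    refine Set.eq_of_subset_of_ncard_le ?_ ?_ (Set.toFinite _)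
    · intro y hy
      rcases hy with rfl | rfl | rfl <;> assumption
    · rw [h4]
      exact hX.1
  have dig : ∀ e f : El ι, e ∈ X → f ∈ X → e ≠ f → e.cl = f.cl → X ∩ El.Lg e.cl = {e, f} := by
    intro e f he hf hne hcl
    symm
    refine Set.eq_of_subset_of_ncard_le ?_ ?_ (Set.toFinite _)
    · intro y hy
      rcases hy with rfl | rfl
      · exact ⟨he, rfl⟩
      · exact ⟨hf, hcl.symm⟩
    · rw [Set.ncard_pair hne]
      exact lg _
  refine ⟨fun l hl hlX hb => ?_, fun l l' hl hl' hlX hlX' _ => ?_⟩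
  · rcases cycle_cases hl with ⟨e, f, s, t, rfl, h1, h2, h3⟩ |
      ⟨e, f, x, s, t, r, rfl, h1, h2, h3, h4, h5, h6⟩
    · exact unbalanced_digon hg h1 h2 h3 hb
    · obtain ⟨i, j, hij⟩ := balanced_triangle hg h1 h2 h3 h4 h5 h6 hb
      rw [edges_three, hij] at hlX
      have h7 := hX.2 _ (Or.inr ⟨i, j, rfl⟩)
      rw [Set.inter_eq_right.2 hlX, T_ncard] at h7
      omega
  · rcases cycle_cases hl with ⟨e, f, s, t, rfl, h1, h2, h3⟩ |
      ⟨e, f, x, s, t, r, rfl, h1, h2, h3, _⟩ <;>
    rcases cycle_cases hl' with ⟨e', f', s', t', rfl, h1', h2', h3'⟩ |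
      ⟨e', f', x', s', t', r', rfl, h1', h2', h3', _⟩ <;>
    simp only [edges_two, edges_three] at hlX hlX' ⊢
    · have he := hlX (Set.mem_insert _ _)
      have hf := hlX (Set.mem_insert_of_mem _ rfl)
      have he' := hlX' (Set.mem_insert _ _)
      have hf' := hlX' (Set.mem_insert_of_mem _ rfl)
      have d1 := dig e f he hf h1 h2
      have d2 := dig e' f' he' hf' h1' h2'
      by_cases hc : e.cl = e'.cl
      · rw [← d1, ← d2, hc]
      · exfalso
        have hd : Disjoint ({e, f} : Set (El ι)) {e', f'} := by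
          rw [← d1, ← d2, Set.disjoint_left]
          rintro y ⟨_, hy⟩ ⟨_, hy'⟩
          exact hc (hy.symm.trans hy')
        have h5 : ({e, f} ∪ {e', f'} : Set (El ι)).ncard = 4 := by
          rw [Set.ncard_union_eq hd (Set.toFinite _) (Set.toFinite _), Set.ncard_pair h1,
            Set.ncard_pair h1']
        have h6 := Set.ncard_le_ncard (Set.union_subset hlX hlX') (Set.toFinite _)
        have := hX.1
        omega
    · exfalso
      have he := hlX (Set.mem_insert _ _)
      have hf := hlX (Set.mem_insert_of_mem _ rfl)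
      have he' := hlX' (Set.mem_insert _ _)
      have hf' := hlX' (Set.mem_insert_of_mem _ (Set.mem_insert _ _))
      have hx' := hlX' (Set.mem_insert_of_mem _ (Set.mem_insert_of_mem _ rfl))
      have ht := tri e' f' x' he' hf' hx' h1' h2' h3'
      rw [ht] at he hf
      rcases he with rfl | rfl | rfl <;> rcases hf with rfl | rfl | rfl <;> simp_all
    · exfalso
      have he := hlX' (Set.mem_insert _ _)
      have hf := hlX' (Set.mem_insert_of_mem _ rfl)
      have he' := hlX (Set.mem_insert _ _)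
      have hf' := hlX (Set.mem_insert_of_mem _ (Set.mem_insert _ _))
      have hx' := hlX (Set.mem_insert_of_mem _ (Set.mem_insert_of_mem _ rfl))
      have ht := tri e f x he' hf' hx' h1 h2 h3
      rw [ht] at he hf
      rcases he with rfl | rfl | rfl <;> rcases hf with rfl | rfl | rfl <;> simp_all
    · have he := hlX (Set.mem_insert _ _)
      have hf := hlX (Set.mem_insert_of_mem _ (Set.mem_insert _ _))
      have hx := hlX (Set.mem_insert_of_mem _ (Set.mem_insert_of_mem _ rfl))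
      have he' := hlX' (Set.mem_insert _ _)
      have hf' := hlX' (Set.mem_insert_of_mem _ (Set.mem_insert _ _))
      have hx' := hlX' (Set.mem_insert_of_mem _ (Set.mem_insert_of_mem _ rfl))
      rw [← tri e f x he hf hx h1 h2 h3, ← tri e' f' x' he' hf' hx' h1' h2' h3']

theorem dec_touch : ∀ κ κ' : Fin 3,
    (El.fs κ = El.fs κ' ∨ El.fs κ = El.ft κ') ∨ (El.ft κ = El.fs κ' ∨ El.ft κ = El.ft κ') := by
  decide

/-- two digons in an independent set are equal -/
theorem digon_unique {X : Set (El ι)} (hX : (SG g h).Indep X) {e f e' f' : El ι} (he : e ∈ X)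
    (hf : f ∈ X) (he' : e' ∈ X) (hf' : f' ∈ X) (hne : e ≠ f) (hcl : e.cl = f.cl) (hne' : e' ≠ f')
    (hcl' : e'.cl = f'.cl) : ({e, f} : Set (El ι)) = {e', f'} := by
  have h1 := hX.2 _ _ (digon_cycle (g := g) (h := h) hcl hne)
    (digon_cycle (g := g) (h := h) hcl' hne')
    (by rw [edges_two]; exact Set.insert_subset he (Set.singleton_subset_iff.2 hf))
    (by rw [edges_two]; exact Set.insert_subset he' (Set.singleton_subset_iff.2 hf')) ?_
  · rwa [edges_two, edges_two] at h1
  · rcases dec_touch e.cl e'.cl with (h1 | h1) | (h1 | h1)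
    · refine ⟨(e, true), by simp, (e', true), by simp, ?_⟩
      rw [SG_tail, SG_tail]
      simp only [if_true, h1]
      exact Relation.EqvGen.refl _
    · refine ⟨(e, true), by simp, (f', false), by simp, ?_⟩
      rw [SG_tail, SG_tail]
      simp only [if_true, Bool.false_eq_true, if_false, h1, hcl']
      exact Relation.EqvGen.refl _
    · refine ⟨(f, false), by simp, (e', true), by simp, ?_⟩
      rw [SG_tail, SG_tail]
      simp only [if_true, Bool.false_eq_true, if_false, ← hcl, h1]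
      exact Relation.EqvGen.refl _
    · refine ⟨(f, false), by simp, (f', false), by simp, ?_⟩
      rw [SG_tail, SG_tail]
      simp only [Bool.false_eq_true, if_false, ← hcl, ← hcl', h1]
      exact Relation.EqvGen.refl _

/-- no digon together with a triangle -/
theorem no_digon_triangle {X : Set (El ι)} (hX : (SG g h).Indep X) {e f : El ι} (he : e ∈ X)
    (hf : f ∈ X) (hne : e ≠ f) (hcl : e.cl = f.cl) {i j i' j' : ι} (ha : El.a i ∈ X)
    (hb : El.b j ∈ X) (hc : El.c i' j' ∈ X) : False := by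
  have h1 := hX.2 _ _ (digon_cycle (g := g) (h := h) hcl hne)
    (triangle_cycle (g := g) (h := h) i j i' j')
    (by rw [edges_two]; exact Set.insert_subset he (Set.singleton_subset_iff.2 hf))
    (by
      rw [edges_three]
      exact Set.insert_subset ha (Set.insert_subset hb (Set.singleton_subset_iff.2 hc))) ?_
  · rw [edges_two, edges_three] at h1
    have h2 : El.a i ∈ ({e, f} : Set (El ι)) := by rw [h1]; simp
    have h3 : El.b j ∈ ({e, f} : Set (El ι)) := by rw [h1]; simp
    have h4 : El.c i' j' ∈ ({e, f} : Set (El ι)) := by rw [h1]; simp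
    rcases h2 with rfl | h2
    · rcases h3 with h3 | h3
      · simp at h3
      · rw [Set.mem_singleton_iff] at h3
        subst h3
        simp [El.cl] at hcl
    · rw [Set.mem_singleton_iff] at h2
      subst h2
      rcases h3 with rfl | h3
      · simp [El.cl] at hcl
      · simp at h3
  · have : (SG g h).tail (e, true) = 0 ∨ (SG g h).tail (e, true) = 1 := by
      rw [SG_tail]
      simp only [if_true]
      generalize e.cl = κ
      revert κ
      decide
    rcases this with h1 | h1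
    · refine ⟨(e, true), by simp, (El.a i, true), by simp, ?_⟩
      rw [h1]
      exact Relation.EqvGen.refl _
    · refine ⟨(e, true), by simp, (El.b j, true), by simp, ?_⟩
      rw [h1]
      exact Relation.EqvGen.refl _

theorem no_digon_triangle' {X : Set (El ι)} (hX : (SG g h).Indep X) {e f : El ι} (he : e ∈ X)
    (hf : f ∈ X) (hne : e ≠ f) (hcl : e.cl = f.cl) (hall : ∀ κ : Fin 3, ∃ x ∈ X, x.cl = κ) :
    False := by
  obtain ⟨x, hx, hx'⟩ := hall 0
  obtain ⟨y, hy, hy'⟩ := hall 1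
  obtain ⟨z, hz, hz'⟩ := hall 2
  obtain ⟨i, rfl⟩ := cl0 hx'
  obtain ⟨j, rfl⟩ := cl1 hy'
  obtain ⟨i', j', rfl⟩ := cl2 hz'
  exact no_digon_triangle hX he hf hne hcl hx hy hz

theorem dec_all : ∀ κ κ' κ'' : Fin 3, κ ≠ κ' → κ' ≠ κ'' → κ ≠ κ'' → ∀ x : Fin 3,
    κ = x ∨ κ' = x ∨ κ'' = x := by
  decide

theorem indep_LI [Finite ι] {X : Set (El ι)} (hX : (SG g h).Indep X) : El.LI X := by
  classical
  refine ⟨?_, ?_⟩
  · by_contra hcon
    push Not at hcon
    have hXf : X.Finite := Set.toFinite X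
    obtain ⟨s, rfl⟩ := hXf.exists_finset_coe
    rw [Set.ncard_coe_finset] at hcon
    obtain ⟨x, hx, y, hy, hxy, hcl⟩ := Finset.exists_ne_map_eq_of_card_lt_of_maps_to
      (s := s) (t := (Finset.univ : Finset (Fin 3))) (f := El.cl) (by simpa using hcon)
      (fun _ _ => by simp)
    have h1 : 1 < ((s.erase x).erase y).card := by
      rw [Finset.card_erase_of_mem (by simp [hxy.symm, hy]), Finset.card_erase_of_mem hx]
      omega
    obtain ⟨e, he, f, hf, hef⟩ := Finset.one_lt_card.1 h1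
    simp only [Finset.mem_erase] at he hf
    have key : ∀ e : El ι, e ≠ y ∧ e ≠ x ∧ e ∈ s → x.cl ≠ e.cl := by
      rintro e ⟨h2, h3, h4⟩ h5
      have := digon_unique hX (Finset.mem_coe.2 hx) (Finset.mem_coe.2 hy) (Finset.mem_coe.2 hx)
        (Finset.mem_coe.2 h4) hxy hcl h3.symm h5
      have h6 : y ∈ ({x, e} : Set (El ι)) := by rw [← this]; simp
      rcases h6 with h6 | h6
      · exact hxy h6.symm
      · exact h2 h6.symm
    have k1 := key e he
    have k2 := key f hf
    have k3 : e.cl ≠ f.cl := by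
      intro h5
      have := digon_unique hX (Finset.mem_coe.2 hx) (Finset.mem_coe.2 hy)
        (Finset.mem_coe.2 he.2.2) (Finset.mem_coe.2 hf.2.2) hxy hcl hef h5
      have h6 : x ∈ ({e, f} : Set (El ι)) := by rw [← this]; simp
      rcases h6 with h6 | h6
      · exact he.2.1 h6.symm
      · exact hf.2.1 h6.symm
    refine no_digon_triangle' hX (Finset.mem_coe.2 hx) (Finset.mem_coe.2 hy) hxy hcl fun κ => ?_
    rcases dec_all _ _ _ k1 k3 k2 κ with h5 | h5 | h5
    · exact ⟨x, Finset.mem_coe.2 hx, h5⟩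
    · exact ⟨e, Finset.mem_coe.2 he.2.2, h5⟩
    · exact ⟨f, Finset.mem_coe.2 hf.2.2, h5⟩
  · rintro ℓ (⟨κ, rfl⟩ | ⟨i, j, rfl⟩)
    · by_contra hcon
      push Not at hcon
      obtain ⟨x, hx, y, hy, z, hz, hxy, hxz, hyz⟩ := (Set.two_lt_ncard (Set.toFinite _)).1 hcon
      have hx' : x.cl = κ := hx.2
      have hy' : y.cl = κ := hy.2
      have hz' : z.cl = κ := hz.2
      have := digon_unique hX hx.1 hy.1 hx.1 hz.1 hxy (hx'.trans hy'.symm) hxz
        (hx'.trans hz'.symm)
      have h6 : y ∈ ({x, z} : Set (El ι)) := by rw [← this]; simp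
      rcases h6 with h6 | h6
      · exact hxy h6.symm
      · exact hyz h6
    · by_contra hcon
      push Not at hcon
      have h1 : X ∩ El.T i j = El.T i j :=
        Set.eq_of_subset_of_ncard_le Set.inter_subset_right (by rw [T_ncard]; omega)
          (Set.toFinite _)
      have h2 : El.T i j ⊆ X := Set.inter_eq_right.1 h1
      refine hX.1 _ (triangle_cycle (g := g) (h := h) i j i j) ?_ ?_
      · rw [edges_three]
        exact h2
      · simp [GainGraph.Balanced, GainGraph.dgain, SG]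

theorem mat_gainGraphic [Finite ι] [Nonempty ι] (hg : Gen g h) :
    IsGainGraphic H (El.mat ι) := by
  refine ⟨Fin 3, El ι, inferInstance, inferInstance, SG g h, (Equiv.Set.univ (El ι)).symm,
    fun X => ?_⟩
  have hE : (fun e => (((Equiv.Set.univ (El ι)).symm e : (El.mat ι).E) : El ι)) '' X = X := by
    ext x
    constructor
    · rintro ⟨y, hy, rfl⟩
      exact hy
    · intro hx
      exact ⟨x, hx, rfl⟩
  rw [El.mat_indep]
  constructor
  · intro hX
    have h1 := indep_LI hX
    exact hE.symm ▸ h1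
  · intro hX
    exact LI.indep hg (hE ▸ hX)

theorem LI_triple {x y z : El ι} (hxy : x ≠ y) (hyz : y ≠ z) (hxz : x ≠ z) :
    El.LI ({x, y, z} : Set (El ι)) ↔
      ∀ ℓ ∈ (El.Lines : Set (Set (El ι))), ¬ (x ∈ ℓ ∧ y ∈ ℓ ∧ z ∈ ℓ) := by
  have h3 : ({x, y, z} : Set (El ι)).ncard = 3 := by
    rw [Set.ncard_eq_three]
    exact ⟨x, y, z, hxy, hxz, hyz, rfl⟩
  constructor
  · rintro ⟨_, h1⟩ ℓ hℓ ⟨a1, a2, a3⟩
    have h2 := h1 ℓ hℓ
    rw [Set.inter_eq_left.2 (by
      intro w hw
      rcases hw with rfl | rfl | rfl <;> assumption), h3] at h2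
    omega
  · intro h1
    refine ⟨h3.le, fun ℓ hℓ => ?_⟩
    by_contra h4
    push Not at h4
    have h5 : ({x, y, z} : Set (El ι)) ∩ ℓ = {x, y, z} :=
      Set.eq_of_subset_of_ncard_le Set.inter_subset_left (by omega) (Set.toFinite _)
    have h7 := Set.inter_eq_left.1 h5
    exact h1 ℓ hℓ ⟨h7 (by simp), h7 (by simp), h7 (by simp)⟩

theorem LI_abc (i j k l : ι) : El.LI ({El.a i, El.b j, El.c k l} : Set (El ι)) ↔
    ¬ (k = i ∧ l = j) := by
  rw [LI_triple (by simp) (by simp) (by simp)]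
  constructor
  · rintro h1 ⟨rfl, rfl⟩
    exact h1 (El.T k l) (Or.inr ⟨k, l, rfl⟩) ⟨by simp [El.T], by simp [El.T], by simp [El.T]⟩
  · rintro h1 ℓ (⟨κ, rfl⟩ | ⟨p, q, rfl⟩) ⟨a1, a2, a3⟩
    · have b1 : (El.a i).cl = κ := a1
      have b2 : (El.b j).cl = κ := a2
      rw [← b1] at b2
      simp [El.cl] at b2
    · simp [El.T] at a1 a2 a3
      exact h1 ⟨a3.1.trans a1.symm, a3.2.trans a2.symm⟩

theorem mat_rank [Finite ι] (i j : ι) (hij : i ≠ j) : (El.mat ι).eRank = 3 := by
  have hI : (El.mat ι).Indep ({El.a i, El.a j, El.b i} : Set (El ι)) := by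
    rw [El.mat_indep, LI_triple (by simpa using hij) (by simp) (by simp)]
    rintro ℓ (⟨κ, rfl⟩ | ⟨p, q, rfl⟩) ⟨a1, a2, a3⟩
    · have b1 : (El.a i).cl = κ := a1
      have b2 : (El.b i).cl = κ := a3
      rw [← b1] at b2
      simp [El.cl] at b2
    · simp [El.T] at a1 a2
      exact hij (a1.trans a2.symm)
  obtain ⟨B, hB, hIB⟩ := hI.exists_isBase_superset
  rw [← hB.encard_eq_eRank]
  have hBi := hB.indep
  rw [El.mat_indep] at hBi
  have h3 : ({El.a i, El.a j, El.b i} : Set (El ι)).ncard = 3 := by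
    rw [Set.ncard_eq_three]
    exact ⟨_, _, _, by simpa using hij, by simp, by simp, rfl⟩
  have h4 := Set.ncard_le_ncard hIB (Set.toFinite _)
  have h5 : B.ncard = 3 := le_antisymm hBi.1 (by omega)
  rw [← (Set.toFinite B).cast_ncard_eq, h5]
  rfl

end

/-! ### The models -/

section

variable {ι : Type} [Finite ι]

def aS (P : ι → Prop) : Set (El ι) := {e | ∃ i, P i ∧ e = El.a i}
def bS (P : ι → Prop) : Set (El ι) := {e | ∃ i, P i ∧ e = El.b i}
def cS (P : ι → ι → Prop) : Set (El ι) := {e | ∃ i j, P i j ∧ e = El.c i j}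

theorem rel_cS (P : ι → ι → Prop) (i j : ι) :
    rel (El.mat ι) (cS P) (El.a i) (El.b j) ↔ P i j := by
  unfold rel
  have h : ∀ r : El ι, ({El.a i} ∪ {El.b j} ∪ {r} : Set (El ι)) = {El.a i, El.b j, r} := by
    intro r
    ext x
    simp only [Set.mem_union, Set.mem_singleton_iff, Set.mem_insert_iff]
    tauto
  constructor
  · rintro ⟨r, ⟨k, l, hkl, rfl⟩, h1⟩
    rw [h, El.mat_indep, LI_abc, not_not] at h1
    rw [← h1.1, ← h1.2]
    exact hkl
  · intro hP
    refine ⟨El.c i j, ⟨i, j, hP, rfl⟩, ?_⟩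
    rw [h, El.mat_indep, LI_abc]
    simp

theorem map_cS {P : ι → ι → Prop} {Z X : ι → Prop} (h : ∀ p, Z p → ∃! q, X q ∧ P p q) :
    MS0.Map (El.mat ι) (cS P) (aS Z) (bS X) := by
  rintro z ⟨p, hp, rfl⟩
  obtain ⟨q, hq, hq'⟩ := h p hp
  refine ⟨El.b q, ⟨⟨q, hq.1, rfl⟩, (rel_cS P p q).2 hq.2⟩, ?_⟩
  rintro y ⟨⟨q', hq1, rfl⟩, hq2⟩
  rw [hq' q' ⟨hq1, (rel_cS P p q').1 hq2⟩]

theorem bij_cS {P : ι → ι → Prop} {Z X : ι → Prop} (h : ∀ p, Z p → ∃! q, X q ∧ P p q)
    (h' : ∀ q, X q → ∃! p, Z p ∧ P p q) :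
    Bij (El.mat ι) (cS P) (aS Z) (bS X) := by
  refine ⟨map_cS h, ?_⟩
  rintro z ⟨q, hq, rfl⟩
  obtain ⟨p, hp, hp'⟩ := h' q hq
  refine ⟨El.a p, ⟨⟨p, hp.1, rfl⟩, (rel_cS P p q).2 hp.2⟩, ?_⟩
  rintro y ⟨⟨p', hp1, rfl⟩, hp2⟩
  rw [hp' p' ⟨hp1, (rel_cS P p' q).1 hp2⟩]

end

/-- the model for a solution of the system -/
theorem model (k : ℕ) (L : List Con) (x : ℕ → ℕ) (hL : ∀ c ∈ L, c.Below k) (hk : 1 ≤ k)
    (hx : ∀ c ∈ L, c.Holds x) (m : ℕ) (hm : ∀ i < k, x i ≤ m) :
    ∃ X : Set (El (Fin m)), X ⊆ (El.mat (Fin m)).E ∧ X.ncard = x 0 ∧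
      Sol (El.mat (Fin m)) k L (fun _ => X) := by
  let bs : ℕ → Set (El (Fin m)) := fun n => bS fun p => (p : ℕ) < n
  let as : ℕ → Set (El (Fin m)) := fun n => aS fun p => (p : ℕ) < n
  have hc : (bs (x 0)).ncard = x 0 := by
    have h1 : bs (x 0) = (fun p : Fin m => (El.b p : El (Fin m))) '' {p | (p : ℕ) < x 0} := by
      ext y
      constructor
      · rintro ⟨p, hp, rfl⟩
        exact ⟨p, hp, rfl⟩
      · rintro ⟨p, hp, rfl⟩
        exact ⟨p, hp, rfl⟩
    rw [h1, Set.ncard_image_of_injective _ (fun p q h => by simpa using h)]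
    have h2 : ({p : Fin m | (p : ℕ) < x 0} : Set (Fin m)) =
        ((Finset.univ.filter fun p : Fin m => (p : ℕ) < x 0 : Finset (Fin m)) : Set (Fin m)) := by
      ext p
      simp
    rw [h2, Set.ncard_coe_finset, Fin.card_filter_val_lt]
    exact min_eq_right (hm 0 hk)
  refine ⟨bs (x 0), Set.subset_univ _, hc, ?_⟩
  obtain ⟨w, hwdef⟩ : ∃ w : ℕ → Set (El (Fin m)), w = fun j => if j < 2 * k then
    (if j % 2 = 0 then bs (x (j / 2)) else as (x (j / 2))) else bs (x 0) := ⟨_, rfl⟩
  have we : ∀ i < k, w (2 * i) = bs (x i) := by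
    intro i hi
    have h2 : 2 * i < 2 * k := by omega
    simp [hwdef, h2]
  have wo : ∀ i < k, w (2 * i + 1) = as (x i) := by
    intro i hi
    have h1 : 2 * i + 1 < 2 * k := by omega
    have h3 : (2 * i + 1) % 2 = 1 := by omega
    have h4 : (2 * i + 1) / 2 = i := by omega
    simp [hwdef, h1, h3, h4]
  refine ⟨w, fun _ _ => Set.subset_univ _, fun i => by simp [hwdef], ?_, ?_, ?_⟩
  · rw [show (0 : ℕ) = 2 * 0 from rfl, we 0 hk]
    simp [hwdef]
  · intro i hi
    rw [List.mem_range] at hi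
    rw [we i hi, wo i hi]
    refine ⟨cS fun p q => p = q, Set.subset_univ _, bij_cS ?_ ?_⟩
    · intro p hp
      exact ⟨p, ⟨hp, rfl⟩, fun q hq => hq.2.symm⟩
    · intro p hp
      exact ⟨p, ⟨hp, rfl⟩, fun q hq => hq.2⟩
  · intro c hcL
    have hB := hL c hcL
    have hH := hx c hcL
    clear hwdef
    cases c with
    | one i =>
      simp only [HoldsM]
      rw [we i hB]
      have h1 : x i = 1 := hH
      have h2 := hm i hB
      have h3 : 0 < m := by omega
      refine ⟨El.b ⟨0, h3⟩, ⟨Set.mem_univ _, ⟨0, h3⟩, by simp [h1], rfl⟩, ?_⟩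
      rintro y ⟨_, p, hp, rfl⟩
      congr 1
      ext
      simp only
      omega
    | add i j l =>
      obtain ⟨hi, hj, hl⟩ := hB
      have h1 : x i + x j = x l := hH
      have hml := hm l hl
      simp only [HoldsM]
      rw [we i hi, we j hj, wo l hl]
      refine ⟨as (x i), Set.subset_univ _, aS (fun p => x i ≤ (p : ℕ) ∧ (p : ℕ) < x l),
        Set.subset_univ _, cS fun p q => p = q, Set.subset_univ _,
        cS fun p q => (p : ℕ) = q + x i, Set.subset_univ _, ?_, bij_cS ?_ ?_, bij_cS ?_ ?_⟩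
      · intro z _
        constructor
        · constructor
          · rintro ⟨p, hp, rfl⟩
            rcases Nat.lt_or_ge p (x i) with h2 | h2
            · exact Or.inl ⟨p, h2, rfl⟩
            · exact Or.inr ⟨p, ⟨h2, hp⟩, rfl⟩
          · rintro (⟨p, hp, rfl⟩ | ⟨p, hp, rfl⟩)
            · exact ⟨p, by omega, rfl⟩
            · exact ⟨p, hp.2, rfl⟩
        · rintro ⟨⟨p, hp, rfl⟩, ⟨q, hq, hpq⟩⟩
          simp only [El.a.injEq] at hpq
          subst hpq
          omega
      · intro p hp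
        exact ⟨p, ⟨hp, rfl⟩, fun q hq => hq.2.symm⟩
      · intro p hp
        exact ⟨p, ⟨hp, rfl⟩, fun q hq => hq.2⟩
      · rintro p ⟨hp1, hp2⟩
        have hp3 := p.2
        refine ⟨⟨p - x i, by omega⟩, ⟨by simp only; omega, by simp only; omega⟩, ?_⟩
        rintro q ⟨hq1, hq2⟩
        ext
        simp only
        omega
      · intro q hq
        refine ⟨⟨q + x i, by omega⟩, ⟨⟨by simp only; omega, by simp only; omega⟩, rfl⟩, ?_⟩
        rintro p ⟨hp1, hp2⟩
        ext
        simp only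
        omega
    | mul i j l =>
      obtain ⟨hi, hj, hl⟩ := hB
      have h1 : x i * x j = x l := hH
      have hml := hm l hl
      have hmi := hm i hi
      have hmj := hm j hj
      simp only [HoldsM]
      rw [we i hi, we j hj, wo l hl]
      refine ⟨cS fun p q => (p : ℕ) / x j = q, Set.subset_univ _,
        cS fun p q => (p : ℕ) % x j = q, Set.subset_univ _, map_cS ?_, map_cS ?_, ?_⟩
      · intro p hp
        have h2 : (p : ℕ) / x j < x i := by
          apply Nat.div_lt_of_lt_mul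
          rw [mul_comm, h1]
          exact hp
        refine ⟨⟨p / x j, by omega⟩, ⟨h2, rfl⟩, ?_⟩
        rintro q ⟨_, hq⟩
        ext
        exact hq.symm
      · intro p hp
        have h3 : 0 < x j := by
          rcases Nat.eq_zero_or_pos (x j) with h | h
          · rw [h, mul_zero] at h1
            omega
          · exact h
        have h2 : (p : ℕ) % x j < x j := Nat.mod_lt _ h3
        refine ⟨⟨p % x j, by omega⟩, ⟨h2, rfl⟩, ?_⟩
        rintro q ⟨_, hq⟩
        ext
        exact hq.symm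
      · rintro _ ⟨q, hq, rfl⟩ _ ⟨r, hr, rfl⟩
        have h3 : 0 < x j := by omega
        have h2 : (q : ℕ) * x j + r < x l := by
          rw [← h1]
          calc (q : ℕ) * x j + r < q * x j + x j := by omega
            _ = (q + 1) * x j := by ring
            _ ≤ x i * x j := Nat.mul_le_mul_right _ (by omega)
        have h4 : ((q : ℕ) * x j + r) / x j = q := by
          rw [mul_comm, Nat.mul_add_div h3, Nat.div_eq_of_lt hr, add_zero]
        have h5 : ((q : ℕ) * x j + r) % x j = r := by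
          rw [mul_comm, Nat.mul_add_mod, Nat.mod_eq_of_lt hr]
        refine ⟨El.a ⟨q * x j + r, by omega⟩, ⟨⟨_, h2, rfl⟩, (rel_cS _ _ _).2 h4,
          (rel_cS _ _ _).2 h5⟩, ?_⟩
        rintro _ ⟨⟨p, hp, rfl⟩, h6, h7⟩
        rw [rel_cS] at h6 h7
        congr 1
        ext
        simp only
        rw [← h6, ← h7, mul_comm]
        exact (Nat.div_add_mod _ _).symm

end Pool.Agent.H761R3.Gain
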